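import Mathlib
import Pool.Agent.Lib.MP_938ce2_ag_u6.ChainCount
import Pool.Agent.Lib.MP_938ce2_ag_u6.PSLe

/-!
Definitions for the rows `m5_tasks`: the number of CM types orthogonal to a copy of an absolutely simple
module of dimension `n ≥ 4`, by five primes and moments (MP_938ce2_ag, version 3 of the criterion).
-/

set_option autoImplicit false
set_option linter.unusedSectionVars false

namespace Pool.Agent.Lib.MP_938ce2_ag_M

open Finset Real Module MonoidAlgebra
open Pool.Agent.Lib.MP_938ce2_ag_h67 (sg VV ev mkV Orb red kerM QD down)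
open Pool.Agent.Lib.MP_938ce2_ag_h60 (CMType)
open Pool.Agent.Lib.MP_938ce2_ag_u2 (Act OddM badC mem_badC dM dE dH)
open Pool.Agent.Lib.MP_938ce2_ag_u5 (UU)
open Pool.Agent.Lib.MP_938ce2_ag_u6 (Ort PC PS jc zt)

/-- a family of finite groups of functions with values in the circle -/
structure Fam (X T : Type) where
  /-- the groups -/
  A : T → Type
  [grp : ∀ t, AddCommGroup (A t)]
  [fin : ∀ t, Fintype (A t)]
  /-- the functions -/
  θ : ∀ t, A t →+ (X → UnitAddCircle)

attribute [instance] Fam.grp Fam.fin

section

variable {X T : Type} [Fintype X] [DecidableEq X]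

/-- the trivial family with one member -/
def one (X : Type) : Fam X Unit where
  A _ := Unit
  θ _ := 0

/-- the average number of members orthogonal to a CM type -/
noncomputable def PCs {G : Type} [Group G] [MulAction G X] (c : G) (g : ℕ) [Fintype T]
    (F : Fam X T) : ℝ := ∑ t, PC c g (F.θ t)

/-- the average number of members orthogonal to a sparse sign vector -/
noncomputable def PSs (m : ℕ) [Fintype T] (F : Fam X T) : ℝ := ∑ t, PS m (F.θ t)

/-- the number of members orthogonal to a weight -/
noncomputable def cnt (F : Fam X T) (w : X → ℤ) : ℕ := Nat.card {t // Ort (F.θ t) w}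

/-- the expectation for sparse sign vectors -/
noncomputable def Eb (m : ℕ) (F : (X → ℤ) → ℝ) : ℝ :=
  (∑ b : X → Fin m, F (fun x => zt m (b x))) / (m : ℝ) ^ Fintype.card X

end

section

variable {G Q X X' : Type} [Group G] [Fintype G] [Group Q] [Fintype Q] [MulAction G X]
  [MulAction Q X'] [Fintype X] [DecidableEq X] [Fintype X'] [DecidableEq X']
  (D : QD G Q X X') (N : Submodule (MonoidAlgebra ℚ Q) (VV ℚ Q X')) (q : ℕ) [Fact q.Prime]

noncomputable instance : Fintype (UU N q) := Fintype.ofFinite _

/-- a family extended by the submodules isomorphic to the reduction of `N` modulo `q` -/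
noncomputable def ext {T : Type} (F : Fam X T) : Fam X (T × UU N q) where
  A t := F.A t.1 × t.2.1
  fin t := Fintype.ofFinite (F.A t.1 × t.2.1)
  θ t := (F.θ t.1).coprod (jc D t.2.1)

/-- the number of submodules isomorphic to the reduction of `N` modulo `q` and orthogonal to a weight -/
noncomputable def cntU (w : X → ℤ) : ℕ := Nat.card {U : UU N q // Ort (jc D U.1) w}

/-- `W` is isomorphic to the sum of `d` copies of the reduction of `N` modulo `q` -/
def Good (W : Submodule (MonoidAlgebra (ZMod q) Q) (VV (ZMod q) Q X')) (d : ℕ) : Prop :=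
  Nonempty (W ≃ₗ[MonoidAlgebra (ZMod q) Q] (Fin d → red N (ZMod q)))

/-- the sum over the `s`-tuples of copies of the probabilities of orthogonality to them and to `W` -/
noncomputable def SS (m s : ℕ) (W : Submodule (MonoidAlgebra (ZMod q) Q) (VV (ZMod q) Q X')) : ℝ :=
  ∑ U : Fin s → UU N q, PS m (jc D (W ⊔ ⨆ i, (U i).1))

end

end Pool.Agent.Lib.MP_938ce2_ag_M
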