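import Mathlib
import Pool.Agent.Lib.MP_938ce2_ag_M.MD

/-!
Row MA (150 lines): one step of the chain and elementary facts on the families.

RECIPE. `step`: for every `t` the theorem `u6.chain_count D hA N hodd hE hq2 hqQ N₀ hN1 hN₀ hg (F.θ t) (hF t) (hcop t)`
bounds `∑ U, PC c g ((F.θ t).coprod (jc D U.1))`; sum over `t` (`Fintype.sum_prod_type`). The number of copies:
`u5.card_UU N q hq3 hqQ : Nat.card (UU N q) * (q - 1) ^ 1 ≤ q ^ (finrank Hom(N, VV)) ≤ q ^ n`, so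
`Nat.card (UU N q) / q ^ n ≤ 1 / (q - 1) ≤ 2 / q` (`q ≥ 3`). `PSs_eq`: `PS m θ` is a sum of indicators over `b` divided by
`m ^ card X`; exchange the sums; `∑ t, (if Ort (F.θ t) w then 1 else 0) = Nat.card {t // Ort (F.θ t) w}`.
`cnt_ext`: `u6.ort_coprod`. `cnt_one`: `Ort 0 w` is true. `PC_le_one`: there are `2 ^ g` CM types
(`u2.card_cm_all` or `u2.card_cm`; this also gives `PCs c g (one X) ≤ 1`).
-/

set_option autoImplicit false
set_option linter.unusedSectionVars false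

namespace Pool.Agent.Lib.MP_938ce2_ag_M

open Finset Real Module MonoidAlgebra
open Pool.Agent.Lib.MP_938ce2_ag_h67 (sg VV ev mkV Orb red kerM QD down)
open Pool.Agent.Lib.MP_938ce2_ag_h60 (CMType)
open Pool.Agent.Lib.MP_938ce2_ag_u2 (Act OddM badC mem_badC dM dE dH)
open Pool.Agent.Lib.MP_938ce2_ag_u5 (UU)
open Pool.Agent.Lib.MP_938ce2_ag_u6 (Ort PC PS jc zt)

section

variable {X T : Type} [Fintype X] [DecidableEq X]

theorem PSs_eq (m : ℕ) [Fintype T] (F : Fam X T) : PSs m F = Eb m (fun w => (cnt F w : ℝ)) := by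
  classical
  unfold PSs PS Eb
  rw [← Finset.sum_div]
  congr 1
  have h1 : ∀ b : X → Fin m, (cnt F (fun x => zt m (b x)) : ℝ)
      = ∑ t : T, if Ort (F.θ t) (fun x => zt m (b x)) then (1 : ℝ) else 0 := by
    intro b
    unfold cnt
    rw [Nat.card_eq_fintype_card, Fintype.card_subtype, Finset.sum_boole]
  simp_rw [h1]
  rw [Finset.sum_comm]
  refine Finset.sum_congr rfl fun t _ => ?_
  rw [Finset.sum_boole]

theorem cnt_one (w : X → ℤ) : cnt (one X) w = 1 := by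
  unfold cnt
  have h : ∀ t : Unit, Ort ((one X).θ t) w := by
    intro t a
    refine Finset.sum_eq_zero fun x _ => ?_
    change w x • (0 : UnitAddCircle) = 0
    exact smul_zero _
  rw [Nat.card_congr (Equiv.subtypeUnivEquiv h)]
  exact Nat.card_unique

theorem Eb_mono (m : ℕ) {F F' : (X → ℤ) → ℝ} (h : ∀ w, F w ≤ F' w) : Eb m F ≤ Eb m F' := by
  unfold Eb
  exact div_le_div_of_nonneg_right (Finset.sum_le_sum fun b _ => h _) (by positivity)

theorem Eb_add (m : ℕ) (F F' : (X → ℤ) → ℝ) : Eb m (fun w => F w + F' w) = Eb m F + Eb m F' := by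
  unfold Eb
  rw [Finset.sum_add_distrib, add_div]

theorem Eb_smul (m : ℕ) (a : ℝ) (F : (X → ℤ) → ℝ) : Eb m (fun w => a * F w) = a * Eb m F := by
  unfold Eb
  rw [← Finset.mul_sum, mul_div_assoc]

end

section

variable {G Q X X' : Type} [Group G] [Fintype G] [Group Q] [Fintype Q] [MulAction G X]
  [MulAction Q X'] [Fintype X] [DecidableEq X] [Fintype X'] [DecidableEq X'] {c : G} {g : ℕ}
  [MulAction.IsPretransitive G X] (D : QD G Q X X')
  (N : Submodule (MonoidAlgebra ℚ Q) (VV ℚ Q X')) (q : ℕ) [Fact q.Prime]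

theorem cnt_ext {T : Type} [Finite T] (F : Fam X T) (w : X → ℤ) :
    cnt (ext D N q F) w = cnt F w * cntU D N q w := by
  unfold cnt cntU
  rw [← Nat.card_prod]
  refine Nat.card_congr (Equiv.trans (Equiv.subtypeEquivRight fun t => ?_)
    (Equiv.subtypeProdEquivProd (p := fun t => Ort (F.θ t) w)
      (q := fun U : UU N q => Ort (jc D U.1) w)))
  exact Pool.Agent.Lib.MP_938ce2_ag_u6.ort_coprod (F.θ t.1) (jc D t.2.1) w

theorem PCs_one_le (hA : Act G X c g) : PCs c g (one X) ≤ 1 := by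
  classical
  unfold PCs PC
  rw [Fintype.sum_unique]
  rw [div_le_one (by positivity)]
  have h1 := Pool.Agent.Lib.MP_938ce2_ag_u2.card_cm_all hA
  rw [Nat.card_eq_fintype_card, Fintype.card_subtype] at h1
  have h2 : ((univ.filter fun Φ : Finset X => CMType c Φ ∧ Ort ((one X).θ default) (sg Φ)).card)
      ≤ (univ.filter fun Φ : Finset X => CMType c Φ).card := by
    refine Finset.card_le_card fun Φ hΦ => ?_
    rw [Finset.mem_filter] at hΦ ⊢
    exact ⟨hΦ.1, hΦ.2.1⟩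
  rw [h1] at h2
  exact_mod_cast h2

theorem step (hA : Act G X c g) (hodd : OddM (D.φ c) N)
    (hE : finrank ℚ (N →ₗ[MonoidAlgebra ℚ Q] N) = 1)
    (hH : finrank ℚ (N →ₗ[MonoidAlgebra ℚ Q] VV ℚ Q X') ≤ finrank ℚ N) (hn : 1 ≤ finrank ℚ N)
    (hq2 : q ≠ 2) (hqQ : ¬ q ∣ Fintype.card Q)
    (hg : 4 * ((finrank ℚ N : ℝ) * finrank ℚ N) * (q : ℝ) ^ 2
      * Real.log (9 * ((finrank ℚ N : ℝ) * finrank ℚ N)) ≤ g)
    {T : Type} [Fintype T] (F : Fam X T) (hF : ∀ t a x, F.θ t a (c • x) = - F.θ t a x)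
    (hcop : ∀ t, Nat.Coprime (2 * q) (Fintype.card (F.A t))) :
    PCs c g (ext D N q F)
      ≤ 2 / q * PCs c g F + 2 / (q : ℝ) ^ finrank ℚ N * PSs (160 * q ^ 2) F := by
  have hqp : q.Prime := Fact.out
  have hq3 : 3 ≤ q := by
    have := hqp.two_le
    omega
  have hq3R : (3 : ℝ) ≤ q := by exact_mod_cast hq3
  have hqn : (0 : ℝ) < (q : ℝ) ^ finrank ℚ N := by positivity
  have hmain : ∀ t : T, ∑ U : UU N q, PC c g ((F.θ t).coprod (jc D U.1))
      ≤ (Nat.card (UU N q) * PC c g (F.θ t) + 2 * PS (160 * q ^ 2) (F.θ t))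
        / (q : ℝ) ^ finrank ℚ N := by
    intro t
    refine Pool.Agent.Lib.MP_938ce2_ag_u6.chain_count D hA N hodd hE hq2 hqQ
      (finrank ℚ N * finrank ℚ N) (Nat.mul_pos hn hn) (Nat.mul_le_mul_right _ hH) ?_ (F.θ t) (hF t)
      (hcop t)
    push_cast
    exact hg
  have e1 : PCs c g (ext D N q F) = ∑ t : T, ∑ U : UU N q, PC c g ((F.θ t).coprod (jc D U.1)) := by
    unfold PCs
    rw [Fintype.sum_prod_type]
    rfl
  have hcard : (Nat.card (UU N q) : ℝ) / (q : ℝ) ^ finrank ℚ N ≤ 2 / q := by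
    have h1 := Pool.Agent.Lib.MP_938ce2_ag_u5.card_UU N q hq3 hqQ
    rw [hE, pow_one] at h1
    have h2 : (q : ℝ) ^ finrank ℚ (N →ₗ[MonoidAlgebra ℚ Q] VV ℚ Q X') ≤ (q : ℝ) ^ finrank ℚ N :=
      pow_le_pow_right₀ (by linarith) hH
    rw [div_le_div_iff₀ hqn (by linarith)]
    have h3 : (Nat.card (UU N q) : ℝ) * ((q : ℝ) - 1) ≤ (q : ℝ) ^ finrank ℚ N := h1.trans h2
    have h4 : (0 : ℝ) ≤ Nat.card (UU N q) := Nat.cast_nonneg _
    nlinarith
  have hP : 0 ≤ PCs c g F := by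
    unfold PCs
    exact Finset.sum_nonneg fun t _ => Pool.Agent.Lib.MP_938ce2_ag_u6.PC_nonneg _ _ _
  rw [e1]
  refine (Finset.sum_le_sum fun t _ => hmain t).trans ?_
  have e2 : ∑ t : T, (Nat.card (UU N q) * PC c g (F.θ t) + 2 * PS (160 * q ^ 2) (F.θ t))
        / (q : ℝ) ^ finrank ℚ N
      = (Nat.card (UU N q) : ℝ) / (q : ℝ) ^ finrank ℚ N * PCs c g F
        + 2 / (q : ℝ) ^ finrank ℚ N * PSs (160 * q ^ 2) F := by
    unfold PCs PSs
    rw [Finset.mul_sum, Finset.mul_sum, ← Finset.sum_add_distrib]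
    refine Finset.sum_congr rfl fun t _ => ?_
    ring
  rw [e2]
  exact add_le_add (mul_le_mul_of_nonneg_right hcard hP) le_rfl

/-- the extended family is odd -/
theorem ext_odd (hA : Act G X c g) (hodd : OddM (D.φ c) N) {T : Type} (F : Fam X T)
    (hF : ∀ t a x, F.θ t a (c • x) = - F.θ t a x) :
    ∀ t a x, (ext D N q F).θ t a (c • x) = - (ext D N q F).θ t a x := by
  rintro ⟨t, U⟩ ⟨a, u⟩ x
  have h3 := Pool.Agent.Lib.MP_938ce2_ag_u2.TypeCAux.odd_of_iso D N hodd hA.sq q U.1 U.2 u.1 u.2 (D.π x)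
  rw [← D.comm] at h3
  change F.θ t a (c • x) + jc D U.1 u (c • x) = -(F.θ t a x + jc D U.1 u x)
  rw [hF, Pool.Agent.Lib.MP_938ce2_ag_u6.jc_apply, Pool.Agent.Lib.MP_938ce2_ag_u6.jc_apply, h3,
    map_neg, neg_add]

/-- the orders of the groups of the extended family -/
theorem ext_card (hqQ : ¬ q ∣ Fintype.card Q) {T : Type} (F : Fam X T) (t : T × UU N q) :
    Fintype.card ((ext D N q F).A t) = Fintype.card (F.A t.1) * q ^ finrank ℚ N := by
  have h1 : Nat.card ((ext D N q F).A t) = Nat.card (F.A t.1 × t.2.1) := rfl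
  have h2 : Nat.card t.2.1 = q ^ finrank ℚ N := by
    have h3 := Module.natCard_eq_pow_finrank (K := ZMod q) (V := t.2.1)
    rw [h3, Nat.card_zmod, Pool.Agent.Lib.MP_938ce2_ag_u5.finrank_UU N q hqQ t.2]
  rw [← Nat.card_eq_fintype_card, h1, Nat.card_prod, h2, Nat.card_eq_fintype_card]

end

end Pool.Agent.Lib.MP_938ce2_ag_M
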