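import Mathlib
import Pool.Agent.Lib.MP_938ce2_ag_M.MD

/-!
Row MF (120 lines): the bad CM types have an orthogonal copy modulo every prime.

RECIPE. `bad_le`: `PCs c g F = (∑ t, #{Φ | CMType c Φ ∧ Ort (F.θ t) (sg Φ)}) / 2 ^ g
= (∑ over the CM types Φ, cnt F (sg Φ)) / 2 ^ g ≥ card (badC c M) / 2 ^ g`. `cntU_pos`: as in u5/TwoSum.lean or `TypeCAux.card_gen`
(u2/TypeC.lean): `Φ ∈ badC c M` gives `M'` isomorphic to `M` and orthogonal to `sg Φ`; `down D M'` is isomorphic to `down D M`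
(`down_iso` with `DD_fac`), so `red (down D M') (ZMod q)` is isomorphic to `red (down D M) (ZMod q)` (`red_iso`) and is an element of
`UU`; it is orthogonal to `fw D Φ` modulo `q` (`u5.orth_red`, `sum_fw`), that is, `Ort (jc D _) (sg Φ)` (`u6.ort_jc`, `sum_fw`).
-/

set_option autoImplicit false
set_option linter.unusedSectionVars false

namespace Pool.Agent.Lib.MP_938ce2_ag_M

open Finset Real Module MonoidAlgebra
open Pool.Agent.Lib.MP_938ce2_ag_h67 (sg VV ev mkV Orb red kerM QD down fw sum_fw down_iso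
  mem_down red_iso)
open Pool.Agent.Lib.MP_938ce2_ag_h60 (CMType)
open Pool.Agent.Lib.MP_938ce2_ag_u2 (Act OddM badC mem_badC dM dE dH)
open Pool.Agent.Lib.MP_938ce2_ag_u5 (UU orth_red)
open Pool.Agent.Lib.MP_938ce2_ag_u6 (Ort PC PS jc zt ort_jc)
open Pool.Agent.Lib.MP_938ce2_ag_u2.TypeCAux (QP DD DD_fac DD_one DD_ker)

variable {G X : Type} [Group G] [Fintype G] [MulAction G X] [Fintype X] [DecidableEq X] {c : G}
  {g : ℕ} [MulAction.IsPretransitive G X]

theorem bad_le {T : Type} [Fintype T] (F : Fam X T) (M : Submodule (MonoidAlgebra ℚ G) (VV ℚ G X))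
    (h : ∀ Φ ∈ badC c M, 1 ≤ cnt F (sg Φ)) : ((badC c M).card : ℝ) / 2 ^ g ≤ PCs c g F := by
  classical
  have h1 : badC c M ⊆ (Finset.univ : Finset T).biUnion fun t =>
      Finset.univ.filter fun Φ : Finset X => CMType c Φ ∧ Ort (F.θ t) (sg Φ) := by
    intro Φ hΦ
    have h2 := h Φ hΦ
    have h3 : Nonempty {t // Ort (F.θ t) (sg Φ)} := by
      have h4 : Nat.card {t // Ort (F.θ t) (sg Φ)} ≠ 0 := by
        have : cnt F (sg Φ) = Nat.card {t // Ort (F.θ t) (sg Φ)} := rfl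
        omega
      exact (Nat.card_ne_zero.mp h4).1
    obtain ⟨t, ht⟩ := h3
    rw [Finset.mem_biUnion]
    refine ⟨t, Finset.mem_univ _, ?_⟩
    rw [Finset.mem_filter]
    exact ⟨Finset.mem_univ _, ((mem_badC c M Φ).mp hΦ).1, ht⟩
  have h2 : (badC c M).card ≤ ∑ t : T,
      (Finset.univ.filter fun Φ : Finset X => CMType c Φ ∧ Ort (F.θ t) (sg Φ)).card :=
    (Finset.card_le_card h1).trans Finset.card_biUnion_le
  have h3 : ((badC c M).card : ℝ) ≤ ∑ t : T,
      ((Finset.univ.filter fun Φ : Finset X => CMType c Φ ∧ Ort (F.θ t) (sg Φ)).card : ℝ) := by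
    exact_mod_cast h2
  unfold PCs PC
  rw [← Finset.sum_div]
  refine div_le_div_of_nonneg_right (h3.trans (le_of_eq ?_)) (by positivity)
  refine Finset.sum_congr rfl fun t _ => ?_
  congr!

theorem cntU_pos (hA : Act G X c g) (M : Submodule (MonoidAlgebra ℚ G) (VV ℚ G X)) (q : ℕ)
    [Fact q.Prime] [Fintype (Orb (kerM M) X)] [DecidableEq (Orb (kerM M) X)]
    [Fintype (QP (X := X) (kerM M))] (hqQ : ¬ q ∣ Fintype.card (QP (X := X) (kerM M)))
    (Φ : Finset X) (hΦ : Φ ∈ badC c M) :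
    1 ≤ cntU (DD (X := X) (kerM M)) (down (DD (X := X) (kerM M)) M) q (sg Φ) := by
  classical
  have hMfac := DD_fac M M ⟨LinearEquiv.refl _ _⟩
  obtain ⟨-, M', hM', hv⟩ := (mem_badC c M Φ).mp hΦ
  have hiso := down_iso (DD (X := X) (kerM M)) hMfac (DD_fac M M' hM') hM'
  have hw : ∀ v ∈ down (DD (X := X) (kerM M)) M',
      ∑ y, ((fw (DD (X := X) (kerM M)) Φ y : ℤ) : ℚ) * ev v y = 0 := by
    intro u hu
    rw [sum_fw]
    exact hv _ ((mem_down (DD (X := X) (kerM M)) M' u).mp hu)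
  have hU : Ort (jc (DD (X := X) (kerM M)) (red (down (DD (X := X) (kerM M)) M') (ZMod q)))
      (sg Φ) := by
    rw [ort_jc]
    intro u hu
    have h5 := orth_red q (down (DD (X := X) (kerM M)) M') (fw (DD (X := X) (kerM M)) Φ) hw u hu
    rw [sum_fw] at h5
    exact h5
  unfold cntU
  have hne : Nonempty {U : UU (down (DD (X := X) (kerM M)) M) q //
      Ort (jc (DD (X := X) (kerM M)) U.1) (sg Φ)} :=
    ⟨⟨⟨red (down (DD (X := X) (kerM M)) M') (ZMod q),
      red_iso (down (DD (X := X) (kerM M)) M) (down (DD (X := X) (kerM M)) M') q hqQ hiso⟩, hU⟩⟩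
  have hfin : Finite {U : UU (down (DD (X := X) (kerM M)) M) q //
      Ort (jc (DD (X := X) (kerM M)) U.1) (sg Φ)} := inferInstance
  exact Nat.card_pos

end Pool.Agent.Lib.MP_938ce2_ag_M
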