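import Mathlib
import Pool.Agent.Lib.MP_938ce2_ag_M.MD

/-!
Row MB (180 lines): sums of copies of the reduction of an absolutely simple module.

RECIPE. Let `R = MonoidAlgebra (ZMod q) Q` (semisimple: `q` does not divide the order, `u5.TwoMod`), `A = red N (ZMod q)`, simple
(`u5.simple_UU` with the copy `A` itself) with `finrank (ZMod q) (A →ₗ[R] A) = 1` (`finrank_hom_red_mod`).
`good_sup`: `U` is simple (`u5.simple_UU`), not contained in `W`, so `W ⊓ U = ⊥` and `W ⊔ U ≃ W × U ≃ (Fin d → A) × A ≃ (Fin (d+1) → A)`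
(`Submodule.prodEquivOfIsCompl` on the sup, or `LinearMap.coprod` injective; `Fin.consLinearEquiv` or similar).
`good_rank`: `finrank (ZMod q) A = finrank ℚ N` (`finrank_red_mod`), `finrank` of a power. `good_card`: the copies of `A` in `W`:
`h79.card_submodules_iso_le (R := R) (A := A) (V := W)`: `#{submodules of W iso to A} * #Aut A ≤ #Hom(A, W)`;
`Hom(A, W) ≃ (Fin d → Hom(A, A))` has `q ^ d` elements (`card_hom_eq`), `#Aut A ≥ q - 1` (`aut_ge_odd`, as in `u5.card_UU`). A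
`U : UU N q` with `U.1 ≤ W` gives the submodule `U.1.comap W.subtype` of `W` (injective). `no_bot`: a copy is not `⊥`.
-/

set_option autoImplicit false
set_option linter.unusedSectionVars false

namespace Pool.Agent.Lib.MP_938ce2_ag_M

open Finset Real Module MonoidAlgebra
open Pool.Agent.Lib.MP_938ce2_ag_h67 (sg VV ev mkV Orb red kerM QD down)
open Pool.Agent.Lib.MP_938ce2_ag_h60 (CMType)
open Pool.Agent.Lib.MP_938ce2_ag_u2 (Act OddM badC mem_badC dM dE dH)
open Pool.Agent.Lib.MP_938ce2_ag_u5 (UU)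
open Pool.Agent.Lib.MP_938ce2_ag_u6 (Ort PC PS jc zt)

variable {Q X' : Type} [Group Q] [Fintype Q] [MulAction Q X'] [Fintype X'] [DecidableEq X']
  (N : Submodule (MonoidAlgebra ℚ Q) (VV ℚ Q X')) (q : ℕ) [Fact q.Prime]

theorem good_bot : Good N q ⊥ 0 :=
  ⟨LinearEquiv.ofSubsingleton _ _⟩

theorem good_sup (hE : finrank ℚ (N →ₗ[MonoidAlgebra ℚ Q] N) = 1) (hqQ : ¬ q ∣ Fintype.card Q)
    (W : Submodule (MonoidAlgebra (ZMod q) Q) (VV (ZMod q) Q X')) (d : ℕ) (hW : Good N q W d)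
    (U : UU N q) (hU : ¬ U.1 ≤ W) : Good N q (W ⊔ U.1) (d + 1) := by
  obtain ⟨e⟩ := hW
  have hs := isSimpleModule_iff_isAtom.mp (Pool.Agent.Lib.MP_938ce2_ag_u5.simple_UU N q hqQ hE U)
  have hdis : Disjoint W U.1 := by
    rw [disjoint_comm, disjoint_iff]
    refine (hs.le_iff.mp inf_le_left).resolve_right fun h => hU ?_
    rw [← h]
    exact inf_le_right
  obtain ⟨f⟩ := U.2
  have hr : LinearMap.range (W.subtype.coprod U.1.subtype) = W ⊔ U.1 := by
    rw [LinearMap.range_coprod, Submodule.range_subtype, Submodule.range_subtype]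
  have hinj : Function.Injective (W.subtype.coprod U.1.subtype) := by
    rw [← LinearMap.ker_eq_bot, LinearMap.ker_coprod_of_disjoint_range, Submodule.ker_subtype,
      Submodule.ker_subtype, Submodule.prod_bot]
    rw [Submodule.range_subtype, Submodule.range_subtype]
    exact hdis
  exact ⟨(LinearEquiv.ofEq _ _ hr.symm).trans (((LinearEquiv.ofInjective _ hinj).symm.trans
    ((e.prodCongr f.symm).trans (LinearEquiv.prodComm _ _ _))).trans
      (Fin.consLinearEquiv (MonoidAlgebra (ZMod q) Q) (fun _ : Fin (d + 1) => red N (ZMod q))))⟩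

theorem good_rank (hqQ : ¬ q ∣ Fintype.card Q)
    (W : Submodule (MonoidAlgebra (ZMod q) Q) (VV (ZMod q) Q X')) (d : ℕ) (hW : Good N q W d) :
    finrank (ZMod q) W = d * finrank ℚ N := by
  obtain ⟨e⟩ := hW
  have h1 := (e.restrictScalars (ZMod q)).finrank_eq
  rw [h1, Module.finrank_pi_fintype, Finset.sum_const, Finset.card_univ, Fintype.card_fin,
    smul_eq_mul, Pool.Agent.Lib.MP_938ce2_ag_h67.finrank_red_mod N q hqQ]

theorem good_card (hq2 : q ≠ 2) (hE : finrank ℚ (N →ₗ[MonoidAlgebra ℚ Q] N) = 1)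
    (hqQ : ¬ q ∣ Fintype.card Q)
    (W : Submodule (MonoidAlgebra (ZMod q) Q) (VV (ZMod q) Q X')) (d : ℕ) (hW : Good N q W d) :
    (Nat.card {U : UU N q // U.1 ≤ W} : ℝ) * ((q : ℝ) - 1) ≤ (q : ℝ) ^ d := by
  have hq3 : 3 ≤ q := by
    have h2 := (Fact.out : q.Prime).two_le
    omega
  have hq3R : (3 : ℝ) ≤ q := by exact_mod_cast hq3
  have hne : NeZero (Nat.card Q : ZMod q) := ⟨by
    rw [Nat.card_eq_fintype_card]
    exact Pool.Agent.Lib.MP_938ce2_ag_h67.card_ne_zero_mod (P := Q) q hqQ⟩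
  have hEm := Pool.Agent.Lib.MP_938ce2_ag_h67.finrank_hom_red_mod N N q hqQ
  rw [hE] at hEm
  have hfA : Finite (red N (ZMod q)) := inferInstance
  have hfAA : Finite (red N (ZMod q) →ₗ[MonoidAlgebra (ZMod q) Q] red N (ZMod q)) :=
    DFunLike.finite _
  obtain ⟨e⟩ := hW
  -- homomorphisms to `W`
  have h1 : Nat.card (red N (ZMod q) →ₗ[MonoidAlgebra (ZMod q) Q] W) ≤ q ^ d := by
    have h2 : Nat.card (Fin d → (red N (ZMod q) →ₗ[MonoidAlgebra (ZMod q) Q] red N (ZMod q)))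
        = q ^ d := by
      rw [Nat.card_fun, Nat.card_fin,
        Pool.Agent.Lib.MP_938ce2_ag_h67.card_hom_eq (ZMod q), hEm, ZMod.card, pow_one]
    rw [← h2]
    refine Nat.card_le_card_of_injective (fun φ i =>
      (LinearMap.proj i).comp (e.toLinearMap.comp φ)) ?_
    intro φ ψ h
    apply LinearMap.ext
    intro v
    apply e.injective
    funext i
    exact congrArg (fun t : red N (ZMod q) →ₗ[MonoidAlgebra (ZMod q) Q] red N (ZMod q) => t v)
      (congrFun h i)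
  -- copies inside `W`
  have hsub : Finite (Submodule (MonoidAlgebra (ZMod q) Q) W) :=
    Finite.of_injective (fun S => (S : Set W)) SetLike.coe_injective
  have h2 : Nat.card {U : UU N q // U.1 ≤ W} ≤ Nat.card {S : Submodule (MonoidAlgebra (ZMod q) Q) W //
      Nonempty (red N (ZMod q) ≃ₗ[MonoidAlgebra (ZMod q) Q] S)} := by
    refine Nat.card_le_card_of_injective (fun U =>
      ⟨U.1.1.comap W.subtype, ⟨U.1.2.some.trans (Submodule.comapSubtypeEquivOfLe U.2).symm⟩⟩) ?_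
    intro U U' h
    have h3 := congrArg (fun t => (t.1).map W.subtype) h
    simp only [Submodule.map_comap_subtype, inf_eq_right.mpr U.2, inf_eq_right.mpr U'.2] at h3
    exact Subtype.ext (Subtype.ext h3)
  have h3 := Pool.Agent.Lib.MP_938ce2_ag_h79.card_submodules_iso_le
    (R := MonoidAlgebra (ZMod q) Q) (A := red N (ZMod q)) (V := W)
  have h4 := Pool.Agent.Lib.MP_938ce2_ag_h67.aut_ge_odd (q := q) (R := MonoidAlgebra (ZMod q) Q)
    (A := red N (ZMod q)) hq3
  rw [hEm, pow_one] at h4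
  have h5 : (Nat.card {U : UU N q // U.1 ≤ W} : ℝ)
      ≤ Nat.card {S : Submodule (MonoidAlgebra (ZMod q) Q) W //
        Nonempty (red N (ZMod q) ≃ₗ[MonoidAlgebra (ZMod q) Q] S)} := by exact_mod_cast h2
  refine (mul_le_mul h5 h4 (by linarith) (Nat.cast_nonneg _)).trans ?_
  exact_mod_cast h3.trans h1

theorem no_bot (hn : 1 ≤ finrank ℚ N) (hqQ : ¬ q ∣ Fintype.card Q) (U : UU N q) :
    ¬ U.1 ≤ (⊥ : Submodule (MonoidAlgebra (ZMod q) Q) (VV (ZMod q) Q X')) := by
  intro h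
  have h1 := Pool.Agent.Lib.MP_938ce2_ag_u5.finrank_UU N q hqQ U
  have h2 : Subsingleton U.1 := by
    rw [Submodule.subsingleton_iff_eq_bot]
    exact le_bot_iff.mp h
  rw [Module.finrank_zero_of_subsingleton] at h1
  omega

/-- the number of all copies -/
theorem card_all (hq2 : q ≠ 2) (hE : finrank ℚ (N →ₗ[MonoidAlgebra ℚ Q] N) = 1)
    (hH : finrank ℚ (N →ₗ[MonoidAlgebra ℚ Q] VV ℚ Q X') ≤ finrank ℚ N)
    (hqQ : ¬ q ∣ Fintype.card Q) (hn : 1 ≤ finrank ℚ N) :
    (Nat.card (UU N q) : ℝ) ≤ 2 * (q : ℝ) ^ (finrank ℚ N - 1) := by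
  have hq3 : 3 ≤ q := by
    have h2 := (Fact.out : q.Prime).two_le
    omega
  have hq3R : (3 : ℝ) ≤ q := by exact_mod_cast hq3
  have h1 := Pool.Agent.Lib.MP_938ce2_ag_u5.card_UU N q hq3 hqQ
  rw [hE, pow_one] at h1
  have h2 : (q : ℝ) ^ finrank ℚ (N →ₗ[MonoidAlgebra ℚ Q] VV ℚ Q X') ≤ (q : ℝ) ^ finrank ℚ N :=
    pow_le_pow_right₀ (by linarith) hH
  have h3 : (q : ℝ) ^ finrank ℚ N = (q : ℝ) ^ (finrank ℚ N - 1) * q := by
    rw [← pow_succ]
    congr 1
    omega
  have h4 : 0 < (q : ℝ) ^ (finrank ℚ N - 1) := by positivity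
  have h5 := h1.trans h2
  rw [h3] at h5
  have h6 : (q : ℝ) ^ (finrank ℚ N - 1) * q ≤ (2 * (q : ℝ) ^ (finrank ℚ N - 1)) * ((q : ℝ) - 1) := by
    nlinarith
  exact le_of_mul_le_mul_right (h5.trans h6) (by linarith)

end Pool.Agent.Lib.MP_938ce2_ag_M
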