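import Mathlib
import Pool.Agent.Lib.MP_938ce2_ag_M.MD

/-!
Row MC (120 lines): the powers of the number of orthogonal copies.
-/

set_option autoImplicit false
set_option linter.unusedSectionVars false

namespace Pool.Agent.Lib.MP_938ce2_ag_M

open Finset Real Module MonoidAlgebra
open Pool.Agent.Lib.MP_938ce2_ag_h67 (sg VV ev mkV Orb red kerM QD down)
open Pool.Agent.Lib.MP_938ce2_ag_h60 (CMType)
open Pool.Agent.Lib.MP_938ce2_ag_u2 (Act OddM badC mem_badC dM dE dH)
open Pool.Agent.Lib.MP_938ce2_ag_u5 (UU)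
open Pool.Agent.Lib.MP_938ce2_ag_u6 (Ort PC PS jc zt)

variable {G Q X X' : Type} [Group G] [Fintype G] [Group Q] [Fintype Q] [MulAction G X]
  [MulAction Q X'] [Fintype X] [DecidableEq X] [Fintype X'] [DecidableEq X']
  (D : QD G Q X X') (N : Submodule (MonoidAlgebra ℚ Q) (VV ℚ Q X')) (q : ℕ) [Fact q.Prime]

/-- the value of a weight at a function on the quotient -/
noncomputable def pairW (w : X → ℤ) : VV (ZMod q) Q X' →+ ZMod q where
  toFun u := ∑ x, (w x : ZMod q) * ev u (D.π x)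
  map_zero' := by
    refine Finset.sum_eq_zero fun x _ => ?_
    have h : ev (0 : VV (ZMod q) Q X') (D.π x) = 0 := rfl
    rw [h, mul_zero]
  map_add' u v := by
    rw [← Finset.sum_add_distrib]
    refine Finset.sum_congr rfl fun x _ => ?_
    have h : ev (u + v) (D.π x) = ev u (D.π x) + ev v (D.π x) := rfl
    rw [h, mul_add]

lemma ort_pairW (U : Submodule (MonoidAlgebra (ZMod q) Q) (VV (ZMod q) Q X')) (w : X → ℤ) :
    Ort (jc D U) w ↔ ∀ u ∈ U, pairW D q w u = 0 := by
  have h1 : ∀ u : U, ∑ x, w x • jc D U u x = ZMod.toAddCircle (pairW D q w u.1) := by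
    intro u
    show ∑ x, w x • jc D U u x = ZMod.toAddCircle (∑ x, (w x : ZMod q) * ev u.1 (D.π x))
    rw [map_sum]
    refine Finset.sum_congr rfl fun x _ => ?_
    show w x • ZMod.toAddCircle (ev u.1 (D.π x)) = _
    rw [← map_zsmul, zsmul_eq_mul]
  unfold Ort
  simp only [h1, ZMod.toAddCircle_eq_zero]
  exact ⟨fun h u hu => h ⟨u, hu⟩, fun h u => h u.1 u.2⟩

lemma ort_mono {U V : Submodule (MonoidAlgebra (ZMod q) Q) (VV (ZMod q) Q X')} (h : U ≤ V)
    (w : X → ℤ) (hV : Ort (jc D V) w) : Ort (jc D U) w := by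
  rw [ort_pairW] at hV ⊢
  exact fun u hu => hV u (h hu)

lemma ort_iSup {ι : Type} (U : ι → Submodule (MonoidAlgebra (ZMod q) Q) (VV (ZMod q) Q X'))
    (w : X → ℤ) : Ort (jc D (⨆ i, U i)) w ↔ ∀ i, Ort (jc D (U i)) w := by
  constructor
  · intro h i
    exact ort_mono D q (le_iSup U i) w h
  · intro h
    rw [ort_pairW]
    intro u hu
    induction hu using Submodule.iSup_induction' with
    | mem i x hx => exact (ort_pairW D q (U i) w).mp (h i) x hx
    | zero => exact map_zero _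
    | add x y _ _ hx hy => rw [map_add, hx, hy, add_zero]

lemma iSup_succ' {α : Type} [CompleteLattice α] {s : ℕ} (f : Fin (s + 1) → α) :
    ⨆ i, f i = f 0 ⊔ ⨆ i : Fin s, f i.succ := by
  apply le_antisymm
  · refine iSup_le fun i => ?_
    refine Fin.cases ?_ (fun j => ?_) i
    · exact le_sup_left
    · exact (le_iSup (fun i : Fin s => f i.succ) j).trans le_sup_right
  · exact sup_le (le_iSup f 0) (iSup_le fun i => le_iSup f i.succ)

lemma PS_congr (m : ℕ) {U V : Submodule (MonoidAlgebra (ZMod q) Q) (VV (ZMod q) Q X')}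
    (h : U = V) : PS m (jc D U) = PS m (jc D V) := by
  subst h
  rfl

open Classical in
lemma PS_eq_sum (m : ℕ) (U : Submodule (MonoidAlgebra (ZMod q) Q) (VV (ZMod q) Q X')) :
    PS m (jc D U)
      = (∑ b : X → Fin m, if Ort (jc D U) (fun x => zt m (b x)) then (1 : ℝ) else 0)
        / (m : ℝ) ^ Fintype.card X := by
  unfold PS
  congr 1
  rw [Finset.sum_boole]

open Classical in
lemma cntU_eq (w : X → ℤ) :
    (cntU D N q w : ℝ) = ∑ U : UU N q, if Ort (jc D U.1) w then (1 : ℝ) else 0 := by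
  unfold cntU
  rw [Finset.sum_boole, Nat.card_eq_fintype_card, Fintype.card_subtype]

theorem Eb_pow (m s : ℕ) : Eb m (fun w => (cntU D N q w : ℝ) ^ s) = SS D N q m s ⊥ := by
  classical
  unfold Eb SS
  simp only [PS_eq_sum]
  rw [← Finset.sum_div, Finset.sum_comm]
  congr 1
  refine Finset.sum_congr rfl fun b _ => ?_
  rw [cntU_eq, Fintype.sum_pow]
  refine Finset.sum_congr rfl fun U _ => ?_
  rw [Finset.prod_ite_zero, Finset.prod_const_one, bot_sup_eq]
  simp only [ort_iSup, Finset.mem_univ, true_imp_iff]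

theorem SS_zero (m : ℕ) (W : Submodule (MonoidAlgebra (ZMod q) Q) (VV (ZMod q) Q X')) :
    SS D N q m 0 W = PS m (jc D W) := by
  unfold SS
  rw [Fintype.sum_unique]
  refine PS_congr D q m ?_
  rw [iSup_of_empty, sup_bot_eq]

theorem SS_succ (m s : ℕ) (W : Submodule (MonoidAlgebra (ZMod q) Q) (VV (ZMod q) Q X')) :
    SS D N q m (s + 1) W = ∑ U : UU N q, SS D N q m s (W ⊔ U.1) := by
  unfold SS
  rw [← (Fin.consEquiv (fun _ : Fin (s + 1) => UU N q)).sum_comp, Fintype.sum_prod_type]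
  refine Finset.sum_congr rfl fun U _ => Finset.sum_congr rfl fun V _ => ?_
  refine PS_congr D q m ?_
  rw [iSup_succ', sup_assoc]
  rfl

end Pool.Agent.Lib.MP_938ce2_ag_M
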