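import Mathlib
import Pool.Agent.Lib.MP_938ce2_ag_M.MD
import Pool.Agent.Lib.MP_938ce2_ag_M.MB
import Pool.Agent.Lib.MP_938ce2_ag_M.MC

/-!
Row MM (200 lines): the moments. Uses rows MB and MC.

RECIPE. `n = finrank ℚ N`. For `Good N q W d`, `1 ≤ d ≤ 4`: `PS m (jc D W) ≤ 2 / q ^ (d n)` by `u6.ps_fine D hA m hm W (d * n)
(good_rank ..) ..` (the hypothesis `hg` for `4 n` implies it for `d n`: `log` is monotone). Define the real numbers
`bb 0 d = 2`, `bb (s+1) d = 2 q ^ (d-1) bb s d + (2 / q) bb s (d+1)` and prove by induction on `s`: if `Good N q W d`, `1 ≤ d`,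
`d + s ≤ 4`, then `SS D N q m s W ≤ bb s d / q ^ (d n)`: by `SS_succ` split the sum over `U` according to `U.1 ≤ W` (then
`W ⊔ U.1 = W`; at most `q ^ d / (q - 1) ≤ (3/2) q ^ (d-1)` such `U`, `good_card`) or not (then `good_sup`; at most
`2 q ^ (n-1)` such `U`, `card_all`). For `W = ⊥` no `U` is contained in `W` (`no_bot`), so `SS m (s+1) ⊥ ≤ 2 q ^ (n-1) * bb s 1 / q ^ n
= (2 / q) bb s 1`. With `q ≥ 3`: `bb 1 1 ≤ 6`, `bb 1 2 ≤ 5 q`, `bb 1 3 ≤ 5 q ^ 2`, `bb 2 1 ≤ 22`, `bb 2 2 ≤ 14 q ^ 2`,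
`bb 3 1 ≤ 43 q`; so the moments of order `1, 2, 3, 4` are at most `4/q, 12/q, 44/q, 86`.
-/

set_option autoImplicit false
set_option linter.unusedSectionVars false

namespace Pool.Agent.Lib.MP_938ce2_ag_M

open Finset Real Module MonoidAlgebra
open Pool.Agent.Lib.MP_938ce2_ag_h67 (sg VV ev mkV Orb red kerM QD down)
open Pool.Agent.Lib.MP_938ce2_ag_h60 (CMType)
open Pool.Agent.Lib.MP_938ce2_ag_u2 (Act OddM badC mem_badC dM dE dH)
open Pool.Agent.Lib.MP_938ce2_ag_u5 (UU)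
open Pool.Agent.Lib.MP_938ce2_ag_u6 (Ort PC PS jc zt)

variable {G Q X X' : Type} [Group G] [Fintype G] [Group Q] [Fintype Q] [MulAction G X]
  [MulAction Q X'] [Fintype X] [DecidableEq X] [Fintype X'] [DecidableEq X'] {c : G} {g : ℕ}
  [MulAction.IsPretransitive G X] (D : QD G Q X X')
  (N : Submodule (MonoidAlgebra ℚ Q) (VV ℚ Q X')) (q : ℕ) [Fact q.Prime]

private theorem q_three (hq2 : q ≠ 2) : (3 : ℝ) ≤ q := by
  have h1 : 2 ≤ q := (Fact.out : q.Prime).two_le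
  exact_mod_cast (by omega : 3 ≤ q)

private theorem mm_base (hA : Act G X c g) (hn : 1 ≤ finrank ℚ N)
    (hqQ : ¬ q ∣ Fintype.card Q) (m : ℕ) (hm : 5 ≤ m)
    (hg : (m : ℝ) * (4 * finrank ℚ N) * (q : ℝ) ^ 2 * Real.log (9 * (4 * finrank ℚ N)) ≤ 32 * g)
    (d : ℕ) (hd : 1 ≤ d) (hd4 : d ≤ 4)
    (W : Submodule (MonoidAlgebra (ZMod q) Q) (VV (ZMod q) Q X')) (hW : Good N q W d) :
    SS D N q m 0 W ≤ 2 / (q : ℝ) ^ (d * finrank ℚ N) := by
  rw [SS_zero]
  have hd1 : (1 : ℝ) ≤ d := by exact_mod_cast hd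
  have hd2 : (d : ℝ) ≤ 4 := by exact_mod_cast hd4
  have hn1 : (1 : ℝ) ≤ finrank ℚ N := by exact_mod_cast hn
  have hdn : (d : ℝ) * finrank ℚ N ≤ 4 * finrank ℚ N := by nlinarith
  have hdn1 : (1 : ℝ) ≤ (d : ℝ) * finrank ℚ N := by nlinarith
  refine Pool.Agent.Lib.MP_938ce2_ag_u6.ps_fine D hA m hm W (d * finrank ℚ N)
    (good_rank N q hqQ W d hW) (Nat.mul_pos hd hn) ?_
  refine le_trans ?_ hg
  push_cast
  have hlog : Real.log (9 * ((d : ℝ) * finrank ℚ N)) ≤ Real.log (9 * (4 * finrank ℚ N)) :=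
    Real.log_le_log (by positivity) (by linarith)
  have hlog0 : 0 ≤ Real.log (9 * ((d : ℝ) * finrank ℚ N)) := Real.log_nonneg (by linarith)
  refine mul_le_mul ?_ hlog hlog0 (by positivity)
  refine mul_le_mul_of_nonneg_right ?_ (by positivity)
  exact mul_le_mul_of_nonneg_left hdn (by positivity)

private theorem mm_step (hE : finrank ℚ (N →ₗ[MonoidAlgebra ℚ Q] N) = 1)
    (hH : finrank ℚ (N →ₗ[MonoidAlgebra ℚ Q] VV ℚ Q X') ≤ finrank ℚ N) (hn : 1 ≤ finrank ℚ N)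
    (hq2 : q ≠ 2) (hqQ : ¬ q ∣ Fintype.card Q) (m : ℕ) (s d : ℕ) (hd : 1 ≤ d) (B1 B2 : ℝ)
    (hB1 : 0 ≤ B1) (hB2 : 0 ≤ B2)
    (H1 : ∀ W : Submodule (MonoidAlgebra (ZMod q) Q) (VV (ZMod q) Q X'), Good N q W d →
      SS D N q m s W ≤ B1 / (q : ℝ) ^ (d * finrank ℚ N))
    (H2 : ∀ W : Submodule (MonoidAlgebra (ZMod q) Q) (VV (ZMod q) Q X'), Good N q W (d + 1) →
      SS D N q m s W ≤ B2 / (q : ℝ) ^ ((d + 1) * finrank ℚ N)) :
    ∀ W : Submodule (MonoidAlgebra (ZMod q) Q) (VV (ZMod q) Q X'), Good N q W d →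
      SS D N q m (s + 1) W
        ≤ (3 / 2 * (q : ℝ) ^ (d - 1) * B1 + 2 / q * B2) / (q : ℝ) ^ (d * finrank ℚ N) := by
  classical
  intro W hW
  have hq3 := q_three q hq2
  have hq0 : (0 : ℝ) < q := by linarith
  set n := finrank ℚ N with hndef
  rw [SS_succ, ← Finset.sum_filter_add_sum_filter_not univ (fun U : UU N q => U.1 ≤ W)]
  have h1 : ∑ U ∈ univ.filter (fun U : UU N q => U.1 ≤ W), SS D N q m s (W ⊔ U.1)
      ≤ (3 / 2 * (q : ℝ) ^ (d - 1)) * (B1 / (q : ℝ) ^ (d * n)) := by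
    refine (Finset.sum_le_card_nsmul _ _ (B1 / (q : ℝ) ^ (d * n)) fun U hU => ?_).trans ?_
    · rw [sup_eq_left.mpr (Finset.mem_filter.mp hU).2]
      exact H1 W hW
    · rw [nsmul_eq_mul]
      refine mul_le_mul_of_nonneg_right ?_ (by positivity)
      have h2 := good_card N q hq2 hE hqQ W d hW
      rw [Nat.card_eq_fintype_card, Fintype.card_subtype] at h2
      have h3 : (q : ℝ) ^ d = q * (q : ℝ) ^ (d - 1) := by
        rw [← pow_succ']
        congr 1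
        omega
      rw [h3] at h2
      set N1 : ℝ := ((univ.filter fun U : UU N q => U.1 ≤ W).card : ℝ) with hN1
      have hN0 : 0 ≤ N1 := by positivity
      have h4 : N1 * (2 / 3 * q) ≤ q * (q : ℝ) ^ (d - 1) :=
        (mul_le_mul_of_nonneg_left (by linarith) hN0).trans h2
      have h5 : q * N1 ≤ q * (3 / 2 * (q : ℝ) ^ (d - 1)) := by linarith
      exact le_of_mul_le_mul_left h5 hq0
  have h2 : ∑ U ∈ univ.filter (fun U : UU N q => ¬ U.1 ≤ W), SS D N q m s (W ⊔ U.1)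
      ≤ (2 * (q : ℝ) ^ (n - 1)) * (B2 / (q : ℝ) ^ ((d + 1) * n)) := by
    refine (Finset.sum_le_card_nsmul _ _ (B2 / (q : ℝ) ^ ((d + 1) * n)) fun U hU => ?_).trans ?_
    · exact H2 _ (good_sup N q hE hqQ W d hW U (Finset.mem_filter.mp hU).2)
    · rw [nsmul_eq_mul]
      refine mul_le_mul_of_nonneg_right ?_ (by positivity)
      have h3 := card_all N q hq2 hE hH hqQ hn
      rw [Nat.card_eq_fintype_card] at h3
      refine le_trans ?_ h3
      have h4 : (univ.filter fun U : UU N q => ¬ U.1 ≤ W).card ≤ Fintype.card (UU N q) :=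
        Finset.card_filter_le _ _
      exact_mod_cast h4
  refine (add_le_add h1 h2).trans (le_of_eq ?_)
  have h3 : (q : ℝ) ^ ((d + 1) * n) = (q : ℝ) ^ (d * n) * (q * (q : ℝ) ^ (n - 1)) := by
    rw [← pow_succ', ← pow_add]
    congr 1
    have : n - 1 + 1 = n := by omega
    rw [this]
    ring
  rw [h3]
  have h4 : (q : ℝ) ^ (n - 1) ≠ 0 := by positivity
  have h5 : (q : ℝ) ^ (d * n) ≠ 0 := by positivity
  field_simp

private theorem mm_fin (hE : finrank ℚ (N →ₗ[MonoidAlgebra ℚ Q] N) = 1)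
    (hH : finrank ℚ (N →ₗ[MonoidAlgebra ℚ Q] VV ℚ Q X') ≤ finrank ℚ N) (hn : 1 ≤ finrank ℚ N)
    (hq2 : q ≠ 2) (hqQ : ¬ q ∣ Fintype.card Q) (m : ℕ) (s : ℕ) (B : ℝ) (hB : 0 ≤ B)
    (H : ∀ W : Submodule (MonoidAlgebra (ZMod q) Q) (VV (ZMod q) Q X'), Good N q W 1 →
      SS D N q m s W ≤ B / (q : ℝ) ^ (1 * finrank ℚ N)) :
    Eb m (fun w => (cntU D N q w : ℝ) ^ (s + 1)) ≤ 2 / q * B := by
  classical
  have hq3 := q_three q hq2
  have hq0 : (0 : ℝ) < q := by linarith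
  rw [Eb_pow, SS_succ]
  refine (Finset.sum_le_card_nsmul _ _ (B / (q : ℝ) ^ (1 * finrank ℚ N)) fun U _ => ?_).trans ?_
  · exact H _ (good_sup N q hE hqQ ⊥ 0 (good_bot N q) U (no_bot N q hn hqQ U))
  · rw [nsmul_eq_mul]
    have h3 := card_all N q hq2 hE hH hqQ hn
    rw [Nat.card_eq_fintype_card] at h3
    have h4 : ((univ : Finset (UU N q)).card : ℝ) ≤ 2 * (q : ℝ) ^ (finrank ℚ N - 1) := h3
    refine (mul_le_mul_of_nonneg_right h4 (by positivity)).trans (le_of_eq ?_)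
    have h5 : (q : ℝ) ^ (1 * finrank ℚ N) = q * (q : ℝ) ^ (finrank ℚ N - 1) := by
      rw [← pow_succ', one_mul]
      congr 1
      omega
    rw [h5]
    have h6 : (q : ℝ) ^ (finrank ℚ N - 1) ≠ 0 := by positivity
    field_simp

theorem moment (hA : Act G X c g) (hE : finrank ℚ (N →ₗ[MonoidAlgebra ℚ Q] N) = 1)
    (hH : finrank ℚ (N →ₗ[MonoidAlgebra ℚ Q] VV ℚ Q X') ≤ finrank ℚ N) (hn : 1 ≤ finrank ℚ N)
    (hq2 : q ≠ 2) (hqQ : ¬ q ∣ Fintype.card Q) (m : ℕ) (hm : 5 ≤ m)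
    (hg : (m : ℝ) * (4 * finrank ℚ N) * (q : ℝ) ^ 2 * Real.log (9 * (4 * finrank ℚ N)) ≤ 32 * g) :
    (∀ s : ℕ, 1 ≤ s → s ≤ 3 → Eb m (fun w => (cntU D N q w : ℝ) ^ s) ≤ 100 / q) ∧
      Eb m (fun w => (cntU D N q w : ℝ) ^ 4) ≤ 100 := by
  have hq3 := q_three q hq2
  have hq0 : (0 : ℝ) < q := by linarith
  have hi0 : 0 < 1 / (q : ℝ) := by positivity
  have hi : 1 / (q : ℝ) ≤ 1 / 3 := one_div_le_one_div_of_le (by norm_num) hq3
  have e : ∀ x : ℝ, x / q = x * (1 / q) := fun x => by ring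
  have S := mm_step D N q hE hH hn hq2 hqQ m
  have F := mm_fin D N q hE hH hn hq2 hqQ m
  have B := mm_base D N q hA hn hqQ m hm hg
  -- order 0
  have b01 := B 1 le_rfl (by norm_num)
  have b02 := B 2 (by norm_num) (by norm_num)
  have b03 := B 3 (by norm_num) (by norm_num)
  have b04 := B 4 (by norm_num) le_rfl
  -- order 1
  have b11 := S 0 1 le_rfl 2 2 (by norm_num) (by norm_num) b01 b02
  have b12 := S 0 2 (by norm_num) 2 2 (by norm_num) (by norm_num) b02 b03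
  have b13 := S 0 3 (by norm_num) 2 2 (by norm_num) (by norm_num) b03 b04
  -- order 2
  have b21 := S 1 1 le_rfl _ _ (by positivity) (by positivity) b11 b12
  have b22 := S 1 2 (by norm_num) _ _ (by positivity) (by positivity) b12 b13
  -- order 3
  have b31 := S 2 1 le_rfl _ _ (by positivity) (by positivity) b21 b22
  have f1 := F 0 2 (by norm_num) b01
  have f2 := F 1 _ (by positivity) b11
  have f3 := F 2 _ (by positivity) b21
  have f4 := F 3 _ (by positivity) b31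
  have hne : (q : ℝ) ≠ 0 := hq0.ne'
  refine ⟨fun s hs1 hs3 => ?_, ?_⟩
  · interval_cases s
    · refine f1.trans ?_
      rw [div_mul_eq_mul_div]
      exact div_le_div_of_nonneg_right (by norm_num) hq0.le
    · refine f2.trans ?_
      rw [div_mul_eq_mul_div]
      refine div_le_div_of_nonneg_right ?_ hq0.le
      simp only [Nat.sub_self, pow_zero, mul_one]
      rw [e 2]
      nlinarith
    · refine f3.trans ?_
      rw [div_mul_eq_mul_div]
      refine div_le_div_of_nonneg_right ?_ hq0.le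
      simp only [Nat.sub_self, pow_zero, mul_one, Nat.add_one_sub_one, pow_one]
      rw [e 2]
      have h1 : 2 * (1 / (q : ℝ)) * (3 / 2 * q * 2 + 2 * (1 / (q : ℝ)) * 2)
          = 6 + 8 * (1 / (q : ℝ)) * (1 / (q : ℝ)) := by
        field_simp
        ring
      rw [h1]
      nlinarith
  · refine f4.trans ?_
    have h2 : (2 : ℕ) - 1 = 1 := rfl
    have h3 : (3 : ℕ) - 1 = 2 := rfl
    have h1 : (1 : ℕ) - 1 = 0 := rfl
    simp only [h1, h2, h3, pow_zero, pow_one, mul_one]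
    set t : ℝ := 1 / (q : ℝ) with ht
    have hqt : (q : ℝ) * t = 1 := by rw [ht]; field_simp
    rw [e 2]
    have ht0 : 0 < t := hi0
    have htne : t ≠ 0 := ht0.ne'
    have hqe : (q : ℝ) = 1 / t := by
      rw [eq_div_iff htne]
      exact hqt
    have h5 : 2 * t * (3 / 2 * (3 / 2 * (3 / 2 * 2 + 2 * t * 2) + 2 * t * (3 / 2 * q * 2 + 2 * t * 2))
          + 2 * t * (3 / 2 * q * (3 / 2 * q * 2 + 2 * t * 2)
            + 2 * t * (3 / 2 * (q : ℝ) ^ 2 * 2 + 2 * t * 2)))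
        = 18 + 111 / 2 * t + 42 * t ^ 2 + 24 * t ^ 3 + 32 * t ^ 4 := by
      rw [hqe]
      field_simp
      ring
    rw [h5]
    have h6 : t ^ 2 ≤ 1 := pow_le_one₀ ht0.le (by linarith)
    have h7 : t ^ 3 ≤ 1 := pow_le_one₀ ht0.le (by linarith)
    have h8 : t ^ 4 ≤ 1 := pow_le_one₀ ht0.le (by linarith)
    have h9 : t ^ 2 ≤ 1 / 9 := by
      have := mul_le_mul hi hi ht0.le (by norm_num)
      nlinarith
    have h10 : t ^ 3 ≤ 1 / 27 := by nlinarith
    have h11 : t ^ 4 ≤ 1 / 81 := by nlinarith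
    linarith

end Pool.Agent.Lib.MP_938ce2_ag_M
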