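import Mathlib
import Pool.Agent.Lib.MP_938ce2_ag_M.MD
import Pool.Agent.Lib.MP_938ce2_ag_M.MA
import Pool.Agent.Lib.MP_938ce2_ag_M.MM

/-!
Row MK (200 lines): the five steps of the chain. Uses rows MA and MM.
-/

set_option autoImplicit false
set_option linter.unusedSectionVars false

namespace Pool.Agent.Lib.MP_938ce2_ag_M

open Finset Real Module MonoidAlgebra
open Pool.Agent.Lib.MP_938ce2_ag_h67 (sg VV ev mkV Orb red kerM QD down)
open Pool.Agent.Lib.MP_938ce2_ag_h60 (CMType)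
open Pool.Agent.Lib.MP_938ce2_ag_u2 (Act OddM badC mem_badC dM dE dH)
open Pool.Agent.Lib.MP_938ce2_ag_u5 (UU)
open Pool.Agent.Lib.MP_938ce2_ag_u6 (Ort PC PS jc zt)

private theorem Eb_one_le {X : Type} [Fintype X] [DecidableEq X] (m : ℕ) :
    Eb (X := X) m (fun _ => (1 : ℝ)) ≤ 1 := by
  unfold Eb
  rw [Finset.sum_const, nsmul_eq_mul, mul_one, Finset.card_univ, Fintype.card_fun,
    Fintype.card_fin]
  push_cast
  exact div_self_le_one _

variable {G Q X X' : Type} [Group G] [Fintype G] [Group Q] [Fintype Q] [MulAction G X]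
  [MulAction Q X'] [Fintype X] [DecidableEq X] [Fintype X'] [DecidableEq X'] {c : G} {g : ℕ}
  [MulAction.IsPretransitive G X] (D : QD G Q X X')
  (N : Submodule (MonoidAlgebra ℚ Q) (VV ℚ Q X'))

/-- one step with numbers -/
private theorem one_step (q : ℕ) [Fact q.Prime] (hA : Act G X c g) (hodd : OddM (D.φ c) N)
    (hE : finrank ℚ (N →ₗ[MonoidAlgebra ℚ Q] N) = 1)
    (hH : finrank ℚ (N →ₗ[MonoidAlgebra ℚ Q] VV ℚ Q X') ≤ finrank ℚ N) (hn : 4 ≤ finrank ℚ N)
    (hq2 : q ≠ 2) (hqQ : ¬ q ∣ Fintype.card Q)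
    (hg : 4 * ((finrank ℚ N : ℝ) * finrank ℚ N) * (q : ℝ) ^ 2
      * Real.log (9 * ((finrank ℚ N : ℝ) * finrank ℚ N)) ≤ g)
    {T : Type} [Fintype T] (F : Fam X T) (hF : ∀ t a x, F.θ t a (c • x) = - F.θ t a x)
    (hcop : ∀ t, Nat.Coprime (2 * q) (Fintype.card (F.A t)))
    (z P S : ℝ) (hz : 1 ≤ z) (hzq : z ≤ q) (hP0 : 0 ≤ P) (hS0 : 0 ≤ S)
    (hP : PCs c g F ≤ P) (hS : PSs (160 * q ^ 2) F ≤ S) :
    PCs c g (ext D N q F) ≤ 2 / z * P + 2 / z ^ 4 * S := by
  have hz0 : (0 : ℝ) < z := by linarith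
  have hq0 : (0 : ℝ) < q := by linarith
  have hq1 : (1 : ℝ) ≤ q := by linarith
  have h1 := step D N q hA hodd hE hH (by omega) hq2 hqQ hg F hF hcop
  have h2 : (2 : ℝ) / q ≤ 2 / z := div_le_div_of_nonneg_left (by norm_num) hz0 hzq
  have h3 : z ^ 4 ≤ (q : ℝ) ^ finrank ℚ N :=
    (pow_le_pow_left₀ hz0.le hzq 4).trans (pow_le_pow_right₀ hq1 hn)
  have h4 : (2 : ℝ) / (q : ℝ) ^ finrank ℚ N ≤ 2 / z ^ 4 :=
    div_le_div_of_nonneg_left (by norm_num) (by positivity) h3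
  calc PCs c g (ext D N q F)
      ≤ 2 / q * PCs c g F + 2 / (q : ℝ) ^ finrank ℚ N * PSs (160 * q ^ 2) F := h1
    _ ≤ 2 / q * P + 2 / (q : ℝ) ^ finrank ℚ N * S :=
        add_le_add (mul_le_mul_of_nonneg_left hP (by positivity))
          (mul_le_mul_of_nonneg_left hS (by positivity))
    _ ≤ 2 / z * P + 2 / z ^ 4 * S :=
        add_le_add (mul_le_mul_of_nonneg_right h2 hP0) (mul_le_mul_of_nonneg_right h4 hS0)

/-- the orders stay coprime -/
private theorem cop_ext (q p : ℕ) [Fact q.Prime] [Fact p.Prime] (hq2 : q ≠ 2) (hpq : p ≠ q)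
    (hqQ : ¬ q ∣ Fintype.card Q) {T : Type} (F : Fam X T)
    (hcop : ∀ t, Nat.Coprime (2 * p) (Fintype.card (F.A t))) (t : T × UU N q) :
    Nat.Coprime (2 * p) (Fintype.card ((ext D N q F).A t)) := by
  rw [ext_card D N q hqQ F t]
  refine Nat.Coprime.mul_right (hcop t.1) (Nat.Coprime.pow_right _ (Nat.Coprime.mul_left ?_ ?_))
  · exact (Nat.coprime_primes Nat.prime_two (Fact.out : q.Prime)).2 (Ne.symm hq2)
  · exact (Nat.coprime_primes (Fact.out : p.Prime) (Fact.out : q.Prime)).2 hpq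

private theorem cop_one (p : ℕ) (t : Unit) :
    Nat.Coprime (2 * p) (Fintype.card ((one X).A t)) := by
  have h : Fintype.card ((one X).A t) = 1 := by
    rw [Fintype.card_eq_one_iff]
    exact ⟨(), fun y => Subsingleton.elim (α := Unit) y ()⟩
  rw [h]
  exact Nat.coprime_one_right _

theorem five_chain (hA : Act G X c g) (hodd : OddM (D.φ c) N)
    (hE : finrank ℚ (N →ₗ[MonoidAlgebra ℚ Q] N) = 1)
    (hH : finrank ℚ (N →ₗ[MonoidAlgebra ℚ Q] VV ℚ Q X') ≤ finrank ℚ N) (hn : 4 ≤ finrank ℚ N)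
    (q : Fin 5 → ℕ) [Fact (q 0).Prime] [Fact (q 1).Prime] [Fact (q 2).Prime] [Fact (q 3).Prime]
    [Fact (q 4).Prime] (hinj : Function.Injective q) (hq2 : ∀ i, q i ≠ 2)
    (hqQ : ∀ i, ¬ q i ∣ Fintype.card Q) (y z : ℝ) (hz : 1 ≤ z) (hzy : z ≤ y) (hy : y ≤ q 0)
    (hzq : ∀ i, i ≠ 0 → z ≤ q i)
    (ha : ∀ i, 4 * ((finrank ℚ N : ℝ) * finrank ℚ N) * (q i : ℝ) ^ 2
      * Real.log (9 * ((finrank ℚ N : ℝ) * finrank ℚ N)) ≤ g)
    (hb : ∀ i j, i < j → 160 * (q i : ℝ) ^ 2 * (4 * finrank ℚ N) * (q j : ℝ) ^ 2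
      * Real.log (9 * (4 * finrank ℚ N)) ≤ 32 * g) :
    PCs c g (ext D N (q 0) (ext D N (q 1) (ext D N (q 2) (ext D N (q 3) (ext D N (q 4) (one X))))))
      ≤ 3000 / (y * z ^ 4) + 200 / y ^ 4 := by
  have hz0 : (0 : ℝ) < z := by linarith
  have hy0 : (0 : ℝ) < y := by linarith
  have hy1 : (1 : ℝ) ≤ y := by linarith
  have hne : ∀ i j : Fin 5, i ≠ j → q i ≠ q j := fun i j h e => h (hinj e)
  -- the orders
  have c3 := cop_ext (X := X) D N (q 4) (q 3) (hq2 4) (hne 3 4 (by decide)) (hqQ 4) (one X)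
    (cop_one (q 3))
  have c2 := cop_ext (X := X) D N (q 3) (q 2) (hq2 3) (hne 2 3 (by decide)) (hqQ 3)
    (ext D N (q 4) (one X)) (cop_ext (X := X) D N (q 4) (q 2) (hq2 4) (hne 2 4 (by decide))
    (hqQ 4) (one X) (cop_one (q 2)))
  have c1 := cop_ext (X := X) D N (q 2) (q 1) (hq2 2) (hne 1 2 (by decide)) (hqQ 2)
    (ext D N (q 3) (ext D N (q 4) (one X)))
    (cop_ext (X := X) D N (q 3) (q 1) (hq2 3) (hne 1 3 (by decide)) (hqQ 3)
    (ext D N (q 4) (one X)) (cop_ext (X := X) D N (q 4) (q 1) (hq2 4) (hne 1 4 (by decide))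
    (hqQ 4) (one X) (cop_one (q 1))))
  have c0 := cop_ext (X := X) D N (q 1) (q 0) (hq2 1) (hne 0 1 (by decide)) (hqQ 1)
    (ext D N (q 2) (ext D N (q 3) (ext D N (q 4) (one X))))
    (cop_ext (X := X) D N (q 2) (q 0) (hq2 2) (hne 0 2 (by decide)) (hqQ 2)
    (ext D N (q 3) (ext D N (q 4) (one X)))
    (cop_ext (X := X) D N (q 3) (q 0) (hq2 3) (hne 0 3 (by decide)) (hqQ 3)
    (ext D N (q 4) (one X)) (cop_ext (X := X) D N (q 4) (q 0) (hq2 4) (hne 0 4 (by decide))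
    (hqQ 4) (one X) (cop_one (q 0)))))
  -- the families are odd
  have o5 : ∀ (t : Unit) (a : (one X).A t) (x : X),
      (one X).θ t a (c • x) = - (one X).θ t a x := by
    intro t a x
    show (0 : UnitAddCircle) = - 0
    rw [neg_zero]
  have o4 := ext_odd D N (q 4) hA hodd (one X) o5
  have o3 := ext_odd D N (q 3) hA hodd (ext D N (q 4) (one X)) o4
  have o2 := ext_odd D N (q 2) hA hodd (ext D N (q 3) (ext D N (q 4) (one X))) o3
  have o1 := ext_odd D N (q 1) hA hodd (ext D N (q 2) (ext D N (q 3) (ext D N (q 4) (one X)))) o2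
  -- the moments
  have hm5 : ∀ i, 5 ≤ 160 * q i ^ 2 := by
    intro i
    have h1 : 1 ≤ q i := by
      fin_cases i
      · exact (Fact.out : (q 0).Prime).one_le
      · exact (Fact.out : (q 1).Prime).one_le
      · exact (Fact.out : (q 2).Prime).one_le
      · exact (Fact.out : (q 3).Prime).one_le
      · exact (Fact.out : (q 4).Prime).one_le
    have h2 : 1 ≤ q i ^ 2 := Nat.one_le_pow _ _ h1
    omega
  have mom : ∀ i j : Fin 5, i < j → ∀ [Fact (q j).Prime],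
      (∀ s : ℕ, 1 ≤ s → s ≤ 3 →
        Eb (160 * q i ^ 2) (fun w => (cntU D N (q j) w : ℝ) ^ s) ≤ 100 / z) ∧
      Eb (160 * q i ^ 2) (fun w => (cntU D N (q j) w : ℝ) ^ 4) ≤ 100 := by
    intro i j hij hp
    have hj : j ≠ 0 := by
      intro h
      rw [h] at hij
      exact absurd hij (Fin.not_lt_zero i)
    have h1 := moment D N (q j) hA hE hH (by omega) (hq2 j) (hqQ j) (160 * q i ^ 2) (hm5 i) (by
      push_cast
      exact hb i j hij)
    refine ⟨fun s hs1 hs3 => (h1.1 s hs1 hs3).trans ?_, h1.2⟩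
    exact div_le_div_of_nonneg_left (by norm_num) hz0 (hzq j hj)
  -- the last prime
  have p5 : PCs c g (one X) ≤ 1 := PCs_one_le hA
  have s5 : PSs (160 * q 4 ^ 2) (one X) ≤ 1 := by
    rw [PSs_eq]
    simp only [cnt_one, Nat.cast_one]
    exact Eb_one_le _
  have e4 := one_step D N (q 4) hA hodd hE hH hn (hq2 4) (hqQ 4) (ha 4) (one X) o5
    (cop_one (q 4)) z 1 1 hz (hzq 4 (by decide)) zero_le_one zero_le_one p5 s5
  have e4' : PCs c g (ext D N (q 4) (one X)) ≤ 4 / z := by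
    refine e4.trans ?_
    have h1 : (2 : ℝ) / z ^ 4 ≤ 2 / z :=
      div_le_div_of_nonneg_left (by norm_num) hz0 (le_self_pow₀ hz (by norm_num))
    have h2 : (4 : ℝ) / z = 2 / z + 2 / z := by ring
    rw [h2, mul_one, mul_one]
    linarith
  -- the second step
  have s4 : PSs (160 * q 3 ^ 2) (ext D N (q 4) (one X)) ≤ 100 / z := by
    rw [PSs_eq]
    have h1 := (mom 3 4 (by decide)).1 1 le_rfl (by norm_num)
    simp only [pow_one] at h1
    simp only [cnt_ext, cnt_one, one_mul]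
    exact h1
  have e3 := one_step D N (q 3) hA hodd hE hH hn (hq2 3) (hqQ 3) (ha 3) (ext D N (q 4) (one X))
    o4 c3 z (4 / z) (100 / z) hz (hzq 3 (by decide)) (by positivity) (by positivity) e4' s4
  have e3' : PCs c g (ext D N (q 3) (ext D N (q 4) (one X))) ≤ 208 / z ^ 2 := by
    refine e3.trans ?_
    have h1 : (200 : ℝ) / z ^ 5 ≤ 200 / z ^ 2 :=
      div_le_div_of_nonneg_left (by norm_num) (by positivity)
        (pow_le_pow_right₀ hz (by norm_num))
    have h2 : 2 / z * (4 / z) + 2 / z ^ 4 * (100 / z) = 8 / z ^ 2 + 200 / z ^ 5 := by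
      field_simp
      ring
    have h3 : (208 : ℝ) / z ^ 2 = 8 / z ^ 2 + 200 / z ^ 2 := by ring
    rw [h2, h3]
    linarith
  -- the third step
  have s3 : PSs (160 * q 2 ^ 2) (ext D N (q 3) (ext D N (q 4) (one X))) ≤ 100 / z := by
    rw [PSs_eq]
    have h1 := (mom 2 3 (by decide)).1 2 (by norm_num) (by norm_num)
    have h2 := (mom 2 4 (by decide)).1 2 (by norm_num) (by norm_num)
    simp only [cnt_ext, cnt_one, one_mul]
    have h3 : Eb (160 * q 2 ^ 2) (fun w : X → ℤ => ((cntU D N (q 4) w * cntU D N (q 3) w : ℕ) : ℝ))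
        ≤ Eb (160 * q 2 ^ 2) (fun w => 1 / 2 * ((cntU D N (q 3) w : ℝ) ^ 2
          + (cntU D N (q 4) w : ℝ) ^ 2)) := by
      refine Eb_mono _ fun w => ?_
      push_cast
      nlinarith [sq_nonneg ((cntU D N (q 3) w : ℝ) - (cntU D N (q 4) w : ℝ))]
    refine h3.trans ?_
    rw [Eb_smul, Eb_add]
    linarith
  have e2 := one_step D N (q 2) hA hodd hE hH hn (hq2 2) (hqQ 2) (ha 2)
    (ext D N (q 3) (ext D N (q 4) (one X)))
    o3 c2 z (208 / z ^ 2) (100 / z) hz (hzq 2 (by decide)) (by positivity) (by positivity) e3' s3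
  have e2' : PCs c g (ext D N (q 2) (ext D N (q 3) (ext D N (q 4) (one X)))) ≤ 616 / z ^ 3 := by
    refine e2.trans ?_
    have h1 : (200 : ℝ) / z ^ 5 ≤ 200 / z ^ 3 :=
      div_le_div_of_nonneg_left (by norm_num) (by positivity)
        (pow_le_pow_right₀ hz (by norm_num))
    have h2 : 2 / z * (208 / z ^ 2) + 2 / z ^ 4 * (100 / z) = 416 / z ^ 3 + 200 / z ^ 5 := by
      field_simp
      ring
    have h3 : (616 : ℝ) / z ^ 3 = 416 / z ^ 3 + 200 / z ^ 3 := by ring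
    rw [h2, h3]
    linarith
  -- the fourth step
  have s2 : PSs (160 * q 1 ^ 2) (ext D N (q 2) (ext D N (q 3) (ext D N (q 4) (one X))))
      ≤ 100 / z := by
    rw [PSs_eq]
    have h1 := (mom 1 2 (by decide)).1 3 (by norm_num) (by norm_num)
    have h2 := (mom 1 3 (by decide)).1 3 (by norm_num) (by norm_num)
    have h3 := (mom 1 4 (by decide)).1 3 (by norm_num) (by norm_num)
    simp only [cnt_ext, cnt_one, one_mul]
    have h4 : Eb (160 * q 1 ^ 2) (fun w : X → ℤ =>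
          ((cntU D N (q 4) w * cntU D N (q 3) w * cntU D N (q 2) w : ℕ) : ℝ))
        ≤ Eb (160 * q 1 ^ 2) (fun w => 1 / 3 * ((cntU D N (q 2) w : ℝ) ^ 3
          + ((cntU D N (q 3) w : ℝ) ^ 3 + (cntU D N (q 4) w : ℝ) ^ 3))) := by
      refine Eb_mono _ fun w => ?_
      push_cast
      have a0 : (0 : ℝ) ≤ (cntU D N (q 2) w : ℝ) := Nat.cast_nonneg _
      have b0 : (0 : ℝ) ≤ (cntU D N (q 3) w : ℝ) := Nat.cast_nonneg _
      have c0 : (0 : ℝ) ≤ (cntU D N (q 4) w : ℝ) := Nat.cast_nonneg _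
      generalize (cntU D N (q 2) w : ℝ) = a at *
      generalize (cntU D N (q 3) w : ℝ) = b at *
      generalize (cntU D N (q 4) w : ℝ) = d at *
      nlinarith [mul_nonneg (add_nonneg (add_nonneg a0 b0) c0)
        (add_nonneg (add_nonneg (sq_nonneg (a - b)) (sq_nonneg (b - d))) (sq_nonneg (a - d)))]
    refine h4.trans ?_
    rw [Eb_smul, Eb_add, Eb_add]
    linarith
  have e1 := one_step D N (q 1) hA hodd hE hH hn (hq2 1) (hqQ 1) (ha 1)
    (ext D N (q 2) (ext D N (q 3) (ext D N (q 4) (one X))))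
    o2 c1 z (616 / z ^ 3) (100 / z) hz (hzq 1 (by decide)) (by positivity) (by positivity) e2' s2
  have e1' : PCs c g (ext D N (q 1) (ext D N (q 2) (ext D N (q 3) (ext D N (q 4) (one X)))))
      ≤ 1432 / z ^ 4 := by
    refine e1.trans ?_
    have h1 : (200 : ℝ) / z ^ 5 ≤ 200 / z ^ 4 :=
      div_le_div_of_nonneg_left (by norm_num) (by positivity)
        (pow_le_pow_right₀ hz (by norm_num))
    have h2 : 2 / z * (616 / z ^ 3) + 2 / z ^ 4 * (100 / z) = 1232 / z ^ 4 + 200 / z ^ 5 := by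
      field_simp
      ring
    have h3 : (1432 : ℝ) / z ^ 4 = 1232 / z ^ 4 + 200 / z ^ 4 := by ring
    rw [h2, h3]
    linarith
  -- the fifth step
  have s1 : PSs (160 * q 0 ^ 2)
      (ext D N (q 1) (ext D N (q 2) (ext D N (q 3) (ext D N (q 4) (one X))))) ≤ 100 := by
    rw [PSs_eq]
    have h1 := (mom 0 1 (by decide)).2
    have h2 := (mom 0 2 (by decide)).2
    have h3 := (mom 0 3 (by decide)).2
    have h4 := (mom 0 4 (by decide)).2
    simp only [cnt_ext, cnt_one, one_mul]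
    have h5 : Eb (160 * q 0 ^ 2) (fun w : X → ℤ => ((cntU D N (q 4) w * cntU D N (q 3) w
          * cntU D N (q 2) w * cntU D N (q 1) w : ℕ) : ℝ))
        ≤ Eb (160 * q 0 ^ 2) (fun w => 1 / 4 * ((cntU D N (q 1) w : ℝ) ^ 4
          + ((cntU D N (q 2) w : ℝ) ^ 4 + ((cntU D N (q 3) w : ℝ) ^ 4
          + (cntU D N (q 4) w : ℝ) ^ 4)))) := by
      refine Eb_mono _ fun w => ?_
      push_cast
      generalize (cntU D N (q 1) w : ℝ) = a
      generalize (cntU D N (q 2) w : ℝ) = b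
      generalize (cntU D N (q 3) w : ℝ) = d
      generalize (cntU D N (q 4) w : ℝ) = e
      have k1 : e * d * b * a ≤ ((e * d) ^ 2 + (b * a) ^ 2) / 2 := by
        nlinarith [sq_nonneg (e * d - b * a)]
      have k2 : (e * d) ^ 2 ≤ (e ^ 4 + d ^ 4) / 2 := by
        nlinarith [sq_nonneg (e ^ 2 - d ^ 2)]
      have k3 : (b * a) ^ 2 ≤ (b ^ 4 + a ^ 4) / 2 := by
        nlinarith [sq_nonneg (b ^ 2 - a ^ 2)]
      linarith
    refine h5.trans ?_
    rw [Eb_smul, Eb_add, Eb_add, Eb_add]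
    linarith
  have e0 := one_step D N (q 0) hA hodd hE hH hn (hq2 0) (hqQ 0) (ha 0)
    (ext D N (q 1) (ext D N (q 2) (ext D N (q 3) (ext D N (q 4) (one X)))))
    o1 c0 y (1432 / z ^ 4) 100 hy1 hy (by positivity) (by norm_num) e1' s1
  refine e0.trans ?_
  have h1 : (2864 : ℝ) / (y * z ^ 4) ≤ 3000 / (y * z ^ 4) :=
    div_le_div_of_nonneg_right (by norm_num) (by positivity)
  have h2 : 2 / y * (1432 / z ^ 4) + 2 / y ^ 4 * 100 = 2864 / (y * z ^ 4) + 200 / y ^ 4 := by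
    field_simp
    ring
  rw [h2]
  linarith

end Pool.Agent.Lib.MP_938ce2_ag_M
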