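import Mathlib

/-!
Row MN (120 lines): numerical inequalities for large `g`.

RECIPE. `log (36 n) ≤ log 36 + g ^ (1/1000)`-like bounds: `Real.log x ≤ x ^ ε / ε` (`Real.log_le_rpow_div`) with small `ε`. The exponents:
first inequality `2/100 + 54/100 < 1`; second `54/100 + 1/100 + 40/100 = 95/100 < 1`; third `1/5 < 27/100`; last:
`27/100 + 4/5 = 107/100 > 21/20` and `4 * 27/100 = 108/100 > 21/20`.
-/

set_option autoImplicit false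
set_option linter.unusedSectionVars false

namespace Pool.Agent.Lib.MP_938ce2_ag_M

open Finset

theorem num_five : ∃ g₀ : ℕ, ∀ g : ℕ, g₀ ≤ g → ∀ n : ℕ, 1 ≤ n → (n : ℝ) ≤ (g : ℝ) ^ (1 / 100 : ℝ) →
    ∀ p r : ℝ, 0 ≤ p → p ≤ 1024 * (g : ℝ) ^ (27 / 100 : ℝ) → 0 ≤ r →
      r ≤ 1024 * (g : ℝ) ^ (1 / 5 : ℝ) →
      4 * ((n : ℝ) * n) * p ^ 2 * Real.log (9 * ((n : ℝ) * n)) ≤ g ∧
      160 * p ^ 2 * (4 * n) * r ^ 2 * Real.log (9 * (4 * n)) ≤ 32 * g ∧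
      1024 * (g : ℝ) ^ (1 / 5 : ℝ) ≤ (g : ℝ) ^ (27 / 100 : ℝ) ∧ 1 ≤ (g : ℝ) ^ (1 / 5 : ℝ) := by
  have e1 : ∀ᶠ g : ℕ in Filter.atTop, (37748736 : ℝ) < (g : ℝ) ^ (42 / 100 : ℝ) :=
    ((tendsto_rpow_atTop (by norm_num)).comp tendsto_natCast_atTop_atTop).eventually_gt_atTop _
  have e2 : ∀ᶠ g : ℕ in Filter.atTop, (1024 : ℝ) < (g : ℝ) ^ (7 / 100 : ℝ) :=
    ((tendsto_rpow_atTop (by norm_num)).comp tendsto_natCast_atTop_atTop).eventually_gt_atTop 1024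
  have e3 : ∀ᶠ g : ℕ in Filter.atTop, (160 * 4 * 1024 ^ 4 * 36 : ℝ) < (g : ℝ) ^ (4 / 100 : ℝ) :=
    ((tendsto_rpow_atTop (by norm_num)).comp tendsto_natCast_atTop_atTop).eventually_gt_atTop _
  obtain ⟨g₀, hg₀⟩ := Filter.eventually_atTop.1 (e1.and (e2.and (e3.and (Filter.eventually_ge_atTop 1))))
  refine ⟨g₀, ?_⟩
  intro g hg n hn hng p r hp0 hp hr0 hr
  obtain ⟨h1, h2, h3, h4⟩ := hg₀ g hg
  have hgpos : (0 : ℝ) < g := by exact_mod_cast h4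
  have hg1 : (1 : ℝ) ≤ g := by exact_mod_cast h4
  have hn1 : (1 : ℝ) ≤ n := by exact_mod_cast hn
  set a : ℝ := (g : ℝ) ^ (1 / 100 : ℝ) with ha
  have hapos : 0 < a := Real.rpow_pos_of_pos hgpos _
  have pw : ∀ k : ℕ, a ^ k = (g : ℝ) ^ ((k : ℝ) / 100) := by
    intro k
    rw [ha, ← Real.rpow_natCast, ← Real.rpow_mul hgpos.le]
    congr 1
    ring
  have p27 : (g : ℝ) ^ (27 / 100 : ℝ) = a ^ 27 := by rw [pw]; norm_num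
  have p20 : (g : ℝ) ^ (1 / 5 : ℝ) = a ^ 20 := by rw [pw]; norm_num
  have p42 : (g : ℝ) ^ (42 / 100 : ℝ) = a ^ 42 := by rw [pw]; norm_num
  have p7 : (g : ℝ) ^ (7 / 100 : ℝ) = a ^ 7 := by rw [pw]; norm_num
  have p4 : (g : ℝ) ^ (4 / 100 : ℝ) = a ^ 4 := by rw [pw]; norm_num
  have p100 : (g : ℝ) = a ^ 100 := by rw [pw]; norm_num
  rw [p27] at hp
  rw [p20] at hr
  rw [p42] at h1
  rw [p7] at h2
  rw [p4] at h3
  rw [p27, p20]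
  have hl1 : Real.log (9 * ((n : ℝ) * n)) ≤ 9 * (a * a) := by
    refine (Real.log_le_self (by positivity)).trans ?_
    gcongr
  have hl1' : 0 ≤ Real.log (9 * ((n : ℝ) * n)) := Real.log_nonneg (by nlinarith)
  have hl2 : Real.log (9 * (4 * (n : ℝ))) ≤ 9 * (4 * a) := by
    refine (Real.log_le_self (by positivity)).trans ?_
    gcongr
  have hl2' : 0 ≤ Real.log (9 * (4 * (n : ℝ))) := Real.log_nonneg (by nlinarith)
  refine ⟨?_, ?_, ?_, ?_⟩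
  · calc 4 * ((n : ℝ) * n) * p ^ 2 * Real.log (9 * ((n : ℝ) * n))
        ≤ 4 * (a * a) * (1024 * a ^ 27) ^ 2 * (9 * (a * a)) := by gcongr
      _ = 37748736 * a ^ 58 := by ring
      _ ≤ a ^ 42 * a ^ 58 := by gcongr
      _ = g := by rw [← pow_add, p100]
  · calc 160 * p ^ 2 * (4 * (n : ℝ)) * r ^ 2 * Real.log (9 * (4 * n))
        ≤ 160 * (1024 * a ^ 27) ^ 2 * (4 * a) * (1024 * a ^ 20) ^ 2 * (9 * (4 * a)) := by gcongr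
      _ = (160 * 4 * 1024 ^ 4 * 36) * a ^ 96 := by ring
      _ ≤ a ^ 4 * a ^ 96 := by gcongr
      _ = g := by rw [← pow_add, p100]
      _ ≤ 32 * g := by linarith
  · calc 1024 * a ^ 20 ≤ a ^ 7 * a ^ 20 := by gcongr
      _ = a ^ 27 := by rw [← pow_add]
  · rw [← p20]
    exact Real.one_le_rpow hg1 (by norm_num)

theorem num_last (g : ℕ) (hg : 1 ≤ g) (y z : ℝ) (hy : (g : ℝ) ^ (27 / 100 : ℝ) ≤ y)
    (hz : (g : ℝ) ^ (1 / 5 : ℝ) ≤ z) :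
    3000 / (y * z ^ 4) + 200 / y ^ 4 ≤ 3200 * (g : ℝ) ^ (-(21 / 20) : ℝ) := by
  have hgpos : (0 : ℝ) < g := by exact_mod_cast hg
  have hg1 : (1 : ℝ) ≤ g := by exact_mod_cast hg
  have hypos : 0 < (g : ℝ) ^ (27 / 100 : ℝ) := Real.rpow_pos_of_pos hgpos _
  have hzpos : 0 < (g : ℝ) ^ (1 / 5 : ℝ) := Real.rpow_pos_of_pos hgpos _
  have hqpos : 0 < (g : ℝ) ^ (21 / 20 : ℝ) := Real.rpow_pos_of_pos hgpos _
  have h1 : (g : ℝ) ^ (21 / 20 : ℝ) ≤ y * z ^ 4 := by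
    have e1 : (g : ℝ) ^ (27 / 100 : ℝ) * ((g : ℝ) ^ (1 / 5 : ℝ)) ^ 4 = (g : ℝ) ^ (107 / 100 : ℝ) := by
      rw [← Real.rpow_natCast, ← Real.rpow_mul hgpos.le, ← Real.rpow_add hgpos]
      norm_num
    have e2 : (g : ℝ) ^ (21 / 20 : ℝ) ≤ (g : ℝ) ^ (107 / 100 : ℝ) :=
      Real.rpow_le_rpow_of_exponent_le hg1 (by norm_num)
    refine e2.trans ?_
    rw [← e1]
    have hy0 : 0 ≤ y := hypos.le.trans hy
    gcongr
  have h2 : (g : ℝ) ^ (21 / 20 : ℝ) ≤ y ^ 4 := by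
    have e1 : ((g : ℝ) ^ (27 / 100 : ℝ)) ^ 4 = (g : ℝ) ^ (108 / 100 : ℝ) := by
      rw [← Real.rpow_natCast, ← Real.rpow_mul hgpos.le]
      norm_num
    have e2 : (g : ℝ) ^ (21 / 20 : ℝ) ≤ (g : ℝ) ^ (108 / 100 : ℝ) :=
      Real.rpow_le_rpow_of_exponent_le hg1 (by norm_num)
    refine e2.trans ?_
    rw [← e1]
    gcongr
  rw [Real.rpow_neg hgpos.le, ← div_eq_mul_inv]
  have h3 : 3000 / (y * z ^ 4) ≤ 3000 / (g : ℝ) ^ (21 / 20 : ℝ) := by gcongr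
  have h4 : 200 / y ^ 4 ≤ 200 / (g : ℝ) ^ (21 / 20 : ℝ) := by gcongr
  calc 3000 / (y * z ^ 4) + 200 / y ^ 4
      ≤ 3000 / (g : ℝ) ^ (21 / 20 : ℝ) + 200 / (g : ℝ) ^ (21 / 20 : ℝ) := add_le_add h3 h4
    _ = 3200 / (g : ℝ) ^ (21 / 20 : ℝ) := by ring

end Pool.Agent.Lib.MP_938ce2_ag_M
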