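import Mathlib

/-!
Row MP (150 lines): five primes.

RECIPE. Put `y = g ^ (27/100)`, `z = g ^ (1/5)`. Bertrand (`Nat.exists_prime_lt_and_le_two_mul`) gives a prime in each of the
disjoint intervals `(2 ^ i z, 2 ^ (i+1) z]`-like intervals; to avoid trouble with the floor choose in turn
`p_0 > z` with `p_0 ≤ 2 ⌈z⌉`, `p_{i+1}` with `p_i < p_{i+1} ≤ 2 p_i`: ten primes between `z` and `2 ^ 10 z`..., all distinct. (The
bound `1024 * z` below leaves room: `p_i ≤ 2 ^ i * 2 * ⌈z⌉`; you need nine of them.) At most five of them divide `o ≤ 4 g` (the product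
of six would be `≥ z ^ 6 = g ^ (6/5) > 4 g`), so four of nine do not divide `o`. In the same way among four primes between `y` and `32 y`,
larger than all the previous ones (`1024 z < y` for large `g`), at most three divide `o` (`y ^ 4 = g ^ (108/100) > 4 g`).
`2` is smaller than all of them.
-/

set_option autoImplicit false
set_option linter.unusedSectionVars false

namespace Pool.Agent.Lib.MP_938ce2_ag_M

open Finset

/-- Iterated Bertrand: a strictly increasing sequence of primes above `n` growing at most like powers of two. -/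
private theorem bertrand_seq (n : ℕ) (hn : n ≠ 0) (k : ℕ) :
    ∃ S : Finset ℕ, S.card = k ∧ ∀ p ∈ S, p.Prime ∧ n < p ∧ p ≤ 2 ^ k * n := by
  induction k with
  | zero => exact ⟨∅, rfl, by simp⟩
  | succ k ih =>
    obtain ⟨S, hS, h⟩ := ih
    have h2 : 2 ^ k * n ≠ 0 := by positivity
    obtain ⟨p, hp, hp1, hp2⟩ := Nat.exists_prime_lt_and_le_two_mul (2 ^ k * n) h2
    have hnk : n ≤ 2 ^ k * n := Nat.le_mul_of_pos_left n (by positivity)
    refine ⟨insert p S, ?_, ?_⟩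
    · rw [Finset.card_insert_of_notMem, hS]
      intro hpS
      have := (h p hpS).2.2
      omega
    · intro q hq
      rcases Finset.mem_insert.1 hq with rfl | hq
      · refine ⟨hp, by omega, ?_⟩
        rw [pow_succ]
        calc q ≤ 2 * (2 ^ k * n) := hp2
          _ = 2 ^ k * 2 * n := by ring
      · obtain ⟨h1, h3, h4⟩ := h q hq
        refine ⟨h1, h3, h4.trans ?_⟩
        rw [pow_succ]
        nlinarith [Nat.zero_le (2 ^ k * n)]

/-- The primes of a set above `x` which divide `o`: `x` to their number is at most `o`. -/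
private theorem pow_card_le (S : Finset ℕ) (o : ℕ) (ho : 1 ≤ o) (x : ℝ) (hx : 0 ≤ x)
    (hS : ∀ p ∈ S, p.Prime ∧ x ≤ p) : x ^ (S.filter (fun p => p ∣ o)).card ≤ o := by
  have h1 : ∏ p ∈ S.filter (fun p => p ∣ o), p ∣ o := by
    refine Finset.prod_primes_dvd o ?_ ?_
    · intro p hp
      exact (hS p (Finset.mem_filter.1 hp).1).1.prime
    · intro p hp
      exact (Finset.mem_filter.1 hp).2
  have h2 : ∏ p ∈ S.filter (fun p => p ∣ o), p ≤ o := Nat.le_of_dvd ho h1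
  have h3 : x ^ (S.filter (fun p => p ∣ o)).card ≤ ∏ p ∈ S.filter (fun p => p ∣ o), (p : ℝ) := by
    rw [← Finset.prod_const]
    refine Finset.prod_le_prod (fun _ _ => hx) ?_
    intro p hp
    exact (hS p (Finset.mem_filter.1 hp).1).2
  refine h3.trans ?_
  rw [← Nat.cast_prod]
  exact Nat.cast_le.2 h2

/-- Enough primes that do not divide `o`. -/
private theorem many_primes (k m o g : ℕ) (ho : 1 ≤ o) (hog : o ≤ 4 * g) (x : ℝ) (hx : 1 ≤ x)
    (hm : 4 * (g : ℝ) < x ^ (m + 1)) :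
    ∃ S : Finset ℕ, S.card = k ∧ ∀ p ∈ S, p.Prime ∧ x < p ∧ (p : ℝ) ≤ 2 ^ (k + m + 1) * x ∧ ¬ p ∣ o := by
  have hc : x ≤ (⌈x⌉₊ : ℝ) := Nat.le_ceil x
  have hc2 : (⌈x⌉₊ : ℝ) < x + 1 := Nat.ceil_lt_add_one (by linarith)
  have hc0 : ⌈x⌉₊ ≠ 0 := by
    intro h
    rw [h] at hc
    norm_num at hc
    linarith
  obtain ⟨T, hT, h⟩ := bertrand_seq ⌈x⌉₊ hc0 (k + m)
  have h1 : ∀ p ∈ T, p.Prime ∧ x ≤ p := by
    intro p hp
    refine ⟨(h p hp).1, hc.trans ?_⟩
    exact_mod_cast (h p hp).2.1.le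
  have h2 := pow_card_le T o ho x (by linarith) h1
  have h3 : (T.filter (fun p => p ∣ o)).card ≤ m := by
    by_contra hlt
    push Not at hlt
    have h4 : x ^ (m + 1) ≤ x ^ (T.filter (fun p => p ∣ o)).card := pow_le_pow_right₀ hx hlt
    have h5 : (o : ℝ) ≤ 4 * g := by exact_mod_cast hog
    linarith
  have h6 : k ≤ (T.filter (fun p => ¬ p ∣ o)).card := by
    have := Finset.card_filter_add_card_filter_not (s := T) (fun p => p ∣ o)
    omega
  obtain ⟨S, hST, hSc⟩ := Finset.exists_subset_card_eq h6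
  refine ⟨S, hSc, ?_⟩
  intro p hp
  have hpT := Finset.mem_filter.1 (hST hp)
  obtain ⟨a1, a2, a3⟩ := h p hpT.1
  refine ⟨a1, ?_, ?_, hpT.2⟩
  · refine lt_of_le_of_lt hc ?_
    exact_mod_cast a2
  · have h7 : (p : ℝ) ≤ 2 ^ (k + m) * (⌈x⌉₊ : ℝ) := by exact_mod_cast a3
    refine h7.trans ?_
    have h8 : (0 : ℝ) < 2 ^ (k + m) := by positivity
    calc (2 : ℝ) ^ (k + m) * (⌈x⌉₊ : ℝ) ≤ 2 ^ (k + m) * (2 * x) := by
          apply mul_le_mul_of_nonneg_left _ h8.le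
          linarith
      _ = 2 ^ (k + m + 1) * x := by ring

theorem five_primes : ∃ g₀ : ℕ, ∀ g o : ℕ, g₀ ≤ g → 1 ≤ o → o ≤ 4 * g →
    ∃ q : Fin 5 → ℕ, (∀ i, (q i).Prime) ∧ Function.Injective q ∧ (∀ i, q i ≠ 2) ∧
      (∀ i, ¬ q i ∣ o) ∧ (g : ℝ) ^ (27 / 100 : ℝ) ≤ q 0 ∧ (q 0 : ℝ) ≤ 32 * (g : ℝ) ^ (27 / 100 : ℝ) ∧
      ∀ i, i ≠ 0 → (g : ℝ) ^ (1 / 5 : ℝ) ≤ q i ∧ (q i : ℝ) ≤ 1024 * (g : ℝ) ^ (1 / 5 : ℝ) := by
  have e1 : ∀ᶠ g : ℕ in Filter.atTop, (4 : ℝ) < (g : ℝ) ^ (8 / 100 : ℝ) :=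
    ((tendsto_rpow_atTop (by norm_num)).comp tendsto_natCast_atTop_atTop).eventually_gt_atTop 4
  have e2 : ∀ᶠ g : ℕ in Filter.atTop, (1024 : ℝ) < (g : ℝ) ^ (7 / 100 : ℝ) :=
    ((tendsto_rpow_atTop (by norm_num)).comp tendsto_natCast_atTop_atTop).eventually_gt_atTop 1024
  have e3 : ∀ᶠ g : ℕ in Filter.atTop, (4 : ℝ) < (g : ℝ) ^ (1 / 5 : ℝ) :=
    ((tendsto_rpow_atTop (by norm_num)).comp tendsto_natCast_atTop_atTop).eventually_gt_atTop 4
  obtain ⟨g₀, hg₀⟩ := Filter.eventually_atTop.1 (e1.and (e2.and (e3.and (Filter.eventually_ge_atTop 1))))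
  refine ⟨g₀, ?_⟩
  intro g o hg ho hog
  obtain ⟨h1, h2, h3, h4⟩ := hg₀ g hg
  have hgpos : (0 : ℝ) < g := by exact_mod_cast h4
  have hg1 : (1 : ℝ) ≤ g := by exact_mod_cast h4
  set z : ℝ := (g : ℝ) ^ (1 / 5 : ℝ) with hz
  set y : ℝ := (g : ℝ) ^ (27 / 100 : ℝ) with hy
  have hz1 : 1 ≤ z := Real.one_le_rpow hg1 (by norm_num)
  have hy1 : 1 ≤ y := Real.one_le_rpow hg1 (by norm_num)
  have hz5 : z ^ 5 = g := by
    rw [hz, ← Real.rpow_natCast, ← Real.rpow_mul hgpos.le]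
    norm_num
  have hz6 : 4 * (g : ℝ) < z ^ (5 + 1) := by
    rw [pow_succ, hz5]
    nlinarith
  have hy4 : 4 * (g : ℝ) < y ^ (3 + 1) := by
    have : y ^ (3 + 1) = g * (g : ℝ) ^ (8 / 100 : ℝ) := by
      have h5 : (g : ℝ) * (g : ℝ) ^ (8 / 100 : ℝ) = (g : ℝ) ^ (1 : ℝ) * (g : ℝ) ^ (8 / 100 : ℝ) := by
        rw [Real.rpow_one]
      rw [h5, ← Real.rpow_add hgpos, hy, ← Real.rpow_natCast, ← Real.rpow_mul hgpos.le]
      norm_num
    rw [this]
    nlinarith
  have hyz : 1024 * z < y := by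
    have : y = (g : ℝ) ^ (7 / 100 : ℝ) * z := by
      rw [hy, hz, ← Real.rpow_add hgpos]
      norm_num
    rw [this]
    nlinarith
  obtain ⟨S, hS, hS'⟩ := many_primes 4 5 o g ho hog z hz1 hz6
  obtain ⟨T, hT, hT'⟩ := many_primes 1 3 o g ho hog y hy1 hy4
  obtain ⟨t, ht⟩ := Finset.card_eq_one.1 hT
  obtain ⟨b1, b2, b3, b4⟩ := hT' t (by rw [ht]; simp)
  let e := S.orderEmbOfFin hS
  have he : ∀ i, e i ∈ S := fun i => Finset.orderEmbOfFin_mem S hS i
  have htS : (1024 * z : ℝ) < t := hyz.trans b2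
  have hbd : ∀ i, (e i : ℝ) ≤ 1024 * z := by
    intro i
    have := (hS' _ (he i)).2.2.1
    norm_num at this
    exact this
  refine ⟨Fin.cons t e, ?_, ?_, ?_, ?_, ?_, ?_, ?_⟩
  · intro i
    refine Fin.cases ?_ (fun j => ?_) i
    · simpa using b1
    · simpa using (hS' _ (he j)).1
  · rw [Fin.cons_injective_iff]
    refine ⟨?_, e.injective⟩
    rintro ⟨i, hi⟩
    have := hbd i
    rw [hi] at this
    linarith
  · intro i
    refine Fin.cases ?_ (fun j => ?_) i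
    · simp only [Fin.cons_zero]
      rintro rfl
      norm_num at htS
      linarith
    · simp only [Fin.cons_succ]
      intro h
      have := (hS' _ (he j)).2.1
      rw [h] at this
      norm_num at this
      linarith
  · intro i
    refine Fin.cases ?_ (fun j => ?_) i
    · simpa using b4
    · simpa using (hS' _ (he j)).2.2.2
  · simpa using b2.le
  · simp only [Fin.cons_zero]
    norm_num at b3
    exact b3
  · intro i
    refine Fin.cases ?_ (fun j => ?_) i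
    · intro h
      exact absurd rfl h
    · intro _
      simp only [Fin.cons_succ]
      exact ⟨(hS' _ (he j)).2.1.le, hbd j⟩

end Pool.Agent.Lib.MP_938ce2_ag_M
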