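import Mathlib
import Pool.Agent.Lib.MP_938ce2_ag_M.MK
import Pool.Agent.Lib.MP_938ce2_ag_M.MF
import Pool.Agent.Lib.MP_938ce2_ag_M.MN
import Pool.Agent.Lib.MP_938ce2_ag_M.MP
import Pool.Agent.Lib.MP_938ce2_ag_M.MA
import Pool.Agent.Lib.MP_938ce2_ag_u2.ThreeA
import Pool.Agent.Lib.MP_938ce2_ag_u5.TwoMod

/-!
Row MH (150 lines): assembly of the theorem for dimensions between `4` and `g ^ (1/100)`.

RECIPE. For `g < g₀` the left side is at most `1` (`badC` consists of CM types, there are `2 ^ g`) and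
`g ^ (-21/20) ≥ g₀ ^ (-21/20)`. For `g ≥ g₀`: `D = DD (kerM M)`, `N = down D M`: `finrank ℚ N = dM M` (`finrank_down`),
`finrank Hom(N, VV) ≤ dH M = dM M` (`finrank_hom_down_le`), `finrank End(N) = dE M = 1` (`u5.finrank_end_down`), odd
(`TypeCAux.odd_down`); the group `QP (kerM M)` has `(kerM M).index ≤ 2 g` elements (proof of `u2.bad_le_odd` for the first equality,
`u2.index_eq`: index `= Nat.card (Orb ..) ≤ 2 g`). Take the primes of `five_primes` for `o = index`. The conditions `ha`, `hb` follow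
from `num_five` (all `q i ≤ 1024 g ^ (27/100)`, and `q j ≤ 1024 g ^ (1/5)` for `j ≥ 1`). `bad_le` for the fivefold family; its
hypothesis: `cnt_ext`, `cnt_one`, `cntU_pos` (a product of positive numbers). Then `five_chain` with `y = g ^ (27/100)`,
`z = g ^ (1/5)` and `num_last`.
-/

set_option autoImplicit false
set_option linter.unusedSectionVars false

namespace Pool.Agent.Lib.MP_938ce2_ag_M

open Finset Real Module MonoidAlgebra
open Pool.Agent.Lib.MP_938ce2_ag_h67 (sg VV ev mkV Orb red kerM QD down)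
open Pool.Agent.Lib.MP_938ce2_ag_h60 (CMType)
open Pool.Agent.Lib.MP_938ce2_ag_u2 (Act OddM badC mem_badC dM dE dH)
open Pool.Agent.Lib.MP_938ce2_ag_u5 (UU)
open Pool.Agent.Lib.MP_938ce2_ag_u6 (Ort PC PS jc zt)
open Pool.Agent.Lib.MP_938ce2_ag_u2.TypeCAux (QP DD DD_fac DD_one DD_ker)

theorem five : ∃ C : ℝ, 0 < C ∧ ∀ (G X : Type) [Group G] [Fintype G] [MulAction G X] [Fintype X]
    [DecidableEq X] [MulAction.IsPretransitive G X] (c : G) (g : ℕ), Act G X c g →
    ∀ M : Submodule (MonoidAlgebra ℚ G) (VV ℚ G X), IsSimpleModule (MonoidAlgebra ℚ G) M →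
      OddM c M → dE M = 1 → dH M = dM M → 4 ≤ dM M → (dM M : ℝ) ≤ (g : ℝ) ^ (1 / 100 : ℝ) →
      ((badC c M).card : ℝ) / 2 ^ g ≤ C * (g : ℝ) ^ (-(21 / 20) : ℝ) := by
  classical
  obtain ⟨g₁, hg₁⟩ := five_primes
  obtain ⟨g₂, hg₂⟩ := num_five
  set g₀ : ℕ := max 1 (max g₁ g₂) with hg₀
  have hg₀1 : 1 ≤ g₀ := le_max_left _ _
  have hg₀g₁ : g₁ ≤ g₀ := (le_max_left _ _).trans (le_max_right _ _)
  have hg₀g₂ : g₂ ≤ g₀ := (le_max_right _ _).trans (le_max_right _ _)
  refine ⟨3200 + (g₀ : ℝ) ^ (21 / 20 : ℝ), by positivity, ?_⟩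
  intro G X _ _ _ _ _ _ c g hA M _ hodd hE hH hd hn
  have hgpos : 1 ≤ g := hA.pos
  have hgR : (0 : ℝ) < g := by exact_mod_cast hgpos
  have hgpow : (0 : ℝ) < (g : ℝ) ^ (-(21 / 20) : ℝ) := Real.rpow_pos_of_pos hgR _
  have hg₀pow : (0 : ℝ) ≤ (g₀ : ℝ) ^ (21 / 20 : ℝ) := Real.rpow_nonneg (Nat.cast_nonneg _) _
  rcases lt_or_ge g g₀ with hg | hg
  · have h1 : ((badC c M).card : ℝ) / 2 ^ g ≤ 1 := by
      refine (bad_le (g := g) (one X) M ?_).trans (PCs_one_le hA)
      intro Φ _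
      rw [cnt_one]
    have h2 : 1 ≤ (g₀ : ℝ) ^ (21 / 20 : ℝ) * (g : ℝ) ^ (-(21 / 20) : ℝ) := by
      rw [Real.rpow_neg hgR.le, ← div_eq_mul_inv, one_le_div (Real.rpow_pos_of_pos hgR _)]
      exact Real.rpow_le_rpow hgR.le (by exact_mod_cast hg.le) (by norm_num)
    rw [add_mul]
    have h3 : 0 ≤ 3200 * (g : ℝ) ^ (-(21 / 20) : ℝ) := by positivity
    linarith
  · -- the quotient by the kernel
    have hft : Finite (Orb (kerM M) X) := Finite.of_surjective _
      (Pool.Agent.Lib.MP_938ce2_ag_h67.Orb.mk_surj (kerM M))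
    let _ : Fintype (Orb (kerM M) X) := Fintype.ofFinite _
    let _ : Fintype (QP (X := X) (kerM M)) := Fintype.ofFinite _
    have hcard : Fintype.card (QP (X := X) (kerM M)) = (kerM M).index := by
      have h0 : (DD (X := X) (kerM M)).φ.ker.index = (kerM M).index := by rw [DD_ker M]
      rw [← Nat.card_eq_fintype_card, ← h0, Subgroup.index_ker]
      have h1 : (DD (X := X) (kerM M)).φ.range = ⊤ :=
        MonoidHom.range_eq_top.mpr (DD (X := X) (kerM M)).hφ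
      rw [h1]
      exact Subgroup.card_top.symm
    have hidx1 : 1 ≤ (kerM M).index := by
      rw [← hcard]
      exact Fintype.card_pos
    have hidx : (kerM M).index ≤ 4 * g := by
      have h1 := Pool.Agent.Lib.MP_938ce2_ag_u2.index_eq hA M (by omega) hH
      have h2 : Nat.card (Orb (kerM M) X) ≤ Nat.card X := Nat.card_le_card_of_surjective _
        (Pool.Agent.Lib.MP_938ce2_ag_h67.Orb.mk_surj (kerM M))
      rw [Nat.card_eq_fintype_card (α := X), hA.card] at h2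
      omega
    obtain ⟨q, hq, hinj, hq2, hqo, hy, hy', hz⟩ := hg₁ g _ (hg₀g₁.trans hg) hidx1 hidx
    have hqQ : ∀ i, ¬ q i ∣ Fintype.card (QP (X := X) (kerM M)) := fun i => by
      rw [hcard]
      exact hqo i
    have hf0 : Fact (q 0).Prime := ⟨hq 0⟩
    have hf1 : Fact (q 1).Prime := ⟨hq 1⟩
    have hf2 : Fact (q 2).Prime := ⟨hq 2⟩
    have hf3 : Fact (q 3).Prime := ⟨hq 3⟩
    have hf4 : Fact (q 4).Prime := ⟨hq 4⟩
    have hMfac := DD_fac M M ⟨LinearEquiv.refl _ _⟩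
    have hNr : finrank ℚ (down (DD (X := X) (kerM M)) M) = dM M :=
      Pool.Agent.Lib.MP_938ce2_ag_h67.finrank_down _ hMfac
    have hNE : finrank ℚ (down (DD (X := X) (kerM M)) M
        →ₗ[MonoidAlgebra ℚ (QP (X := X) (kerM M))] down (DD (X := X) (kerM M)) M) = 1 :=
      (Pool.Agent.Lib.MP_938ce2_ag_u5.finrank_end_down _ hMfac).trans hE
    have hNH : finrank ℚ (down (DD (X := X) (kerM M)) M
        →ₗ[MonoidAlgebra ℚ (QP (X := X) (kerM M))]
        VV ℚ (QP (X := X) (kerM M)) (Orb (kerM M) X))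
        ≤ finrank ℚ (down (DD (X := X) (kerM M)) M) := by
      rw [hNr, ← hH]
      exact Pool.Agent.Lib.MP_938ce2_ag_h67.finrank_hom_down_le _ hMfac
    have hNodd : OddM ((DD (X := X) (kerM M)).φ c) (down (DD (X := X) (kerM M)) M) :=
      Pool.Agent.Lib.MP_938ce2_ag_u2.TypeCAux.odd_down _ M hodd
    -- the numerical inequalities
    have hn' : ((finrank ℚ (down (DD (X := X) (kerM M)) M) : ℕ) : ℝ)
        ≤ (g : ℝ) ^ (1 / 100 : ℝ) := by
      rw [hNr]
      exact hn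
    have hn1 : 1 ≤ finrank ℚ (down (DD (X := X) (kerM M)) M) := by omega
    have hnum := hg₂ g (hg₀g₂.trans hg) _ hn1 hn'
    have hyp : (0 : ℝ) < (g : ℝ) ^ (27 / 100 : ℝ) := Real.rpow_pos_of_pos hgR _
    have hzp : (0 : ℝ) < (g : ℝ) ^ (1 / 5 : ℝ) := Real.rpow_pos_of_pos hgR _
    obtain ⟨-, -, hzy, hz1⟩ := hnum 0 0 le_rfl (by positivity) le_rfl (by positivity)
    have hp : ∀ i, (q i : ℝ) ≤ 1024 * (g : ℝ) ^ (27 / 100 : ℝ) := by
      intro i
      by_cases hi : i = 0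
      · subst hi
        linarith
      · have := (hz i hi).2
        linarith
    have hr : ∀ i, i ≠ 0 → (q i : ℝ) ≤ 1024 * (g : ℝ) ^ (1 / 5 : ℝ) := fun i hi => (hz i hi).2
    have h5 := five_chain (DD (X := X) (kerM M)) (down (DD (X := X) (kerM M)) M) hA hNodd hNE hNH
      (by omega) q hinj hq2 hqQ ((g : ℝ) ^ (27 / 100 : ℝ)) ((g : ℝ) ^ (1 / 5 : ℝ)) hz1
      (by linarith) hy (fun i hi => (hz i hi).1)
      (fun i => (hnum (q i) 0 (Nat.cast_nonneg _) (hp i) le_rfl (by positivity)).1)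
      (fun i j hij => (hnum (q i) (q j) (Nat.cast_nonneg _) (hp i) (Nat.cast_nonneg _)
        (hr j (by
          rintro rfl
          exact absurd hij (by simp)))).2.1)
    have h6 := num_last g hgpos _ _ le_rfl le_rfl
    have h7 : ((badC c M).card : ℝ) / 2 ^ g
        ≤ PCs c g (ext (DD (X := X) (kerM M)) (down (DD (X := X) (kerM M)) M) (q 0)
          (ext (DD (X := X) (kerM M)) (down (DD (X := X) (kerM M)) M) (q 1)
          (ext (DD (X := X) (kerM M)) (down (DD (X := X) (kerM M)) M) (q 2)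
          (ext (DD (X := X) (kerM M)) (down (DD (X := X) (kerM M)) M) (q 3)
          (ext (DD (X := X) (kerM M)) (down (DD (X := X) (kerM M)) M) (q 4) (one X)))))) := by
      apply bad_le
      intro Φ hΦ
      rw [cnt_ext, cnt_ext, cnt_ext, cnt_ext, cnt_ext, cnt_one]
      have e0 := cntU_pos hA M (q 0) (hqQ 0) Φ hΦ
      have e1 := cntU_pos hA M (q 1) (hqQ 1) Φ hΦ
      have e2 := cntU_pos hA M (q 2) (hqQ 2) Φ hΦ
      have e3 := cntU_pos hA M (q 3) (hqQ 3) Φ hΦ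
      have e4 := cntU_pos hA M (q 4) (hqQ 4) Φ hΦ
      exact Nat.mul_pos (Nat.mul_pos (Nat.mul_pos (Nat.mul_pos (Nat.mul_pos Nat.one_pos e4) e3) e2)
        e1) e0
    rw [add_mul]
    have h8 : 0 ≤ (g₀ : ℝ) ^ (21 / 20 : ℝ) * (g : ℝ) ^ (-(21 / 20) : ℝ) :=
      mul_nonneg hg₀pow hgpow.le
    linarith

end Pool.Agent.Lib.MP_938ce2_ag_M
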